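import Mathlib
import Pool.Agent.H447R2.ML.Spec

set_option autoImplicit false

/-! The solutions of `p ^ 2 - 2 r ^ 2 = -1` (copied from the hand-in `MP_927e73_nt.BothPrime` of a
teammate). -/

namespace Pool.Agent.V1193.BP.Pell

open Filter Topology

/-- The numbers `1, 1, 3, 7, 17, 41, …`: the first components of the powers of `1 + √2`. -/
def H : ℕ → ℕ
  | 0 => 1
  | 1 => 1
  | (n + 2) => 2 * H (n + 1) + H n

/-- The Pell numbers `0, 1, 2, 5, 12, 29, …`: the second components of the powers of `1 + √2`. -/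
def R : ℕ → ℕ
  | 0 => 0
  | 1 => 1
  | (n + 2) => 2 * R (n + 1) + R n

/-- `T β B n = β (1 + √2) ^ n + B (1 - √2) ^ n`: the real solutions of the recurrence. -/
noncomputable def T (β B : ℝ) (n : ℕ) : ℝ := β * (1 + Real.sqrt 2) ^ n + B * (1 - Real.sqrt 2) ^ n

/-- The product, with multiplicity, of the prime factors of `m` that are larger than `p`. -/
def roughPart (p m : ℕ) : ℕ := (m.primeFactorsList.filter (fun r => p < r)).prod

/-- The `n`-rough part of `⌊T β B n⌋`. -/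
noncomputable def W (β B : ℝ) (n : ℕ) : ℕ := roughPart n ⌊T β B n⌋₊

/-- The positive solutions of `p ^ 2 - 2 r ^ 2 = -1`. -/
def Sol (p r : ℕ) : Prop := 0 < p ∧ 0 < r ∧ (p : ℤ) ^ 2 - 2 * (r : ℤ) ^ 2 = -1

lemma sq2 : Real.sqrt 2 ^ 2 = 2 := Real.sq_sqrt (by norm_num)

lemma sq2_pos : 0 < Real.sqrt 2 := Real.sqrt_pos.2 (by norm_num)

lemma one_lt_al : 1 < 1 + Real.sqrt 2 := by linarith [sq2_pos]

lemma al_add : (1 + Real.sqrt 2) + (1 - Real.sqrt 2) = ((2 : ℤ) : ℝ) := by push_cast; ring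

lemma al_mul : (1 + Real.sqrt 2) * (1 - Real.sqrt 2) = -1 := by nlinarith [sq2]

lemma al_sq : (1 + Real.sqrt 2) ^ 2 = 2 * (1 + Real.sqrt 2) + 1 := by nlinarith [sq2]

lemma be_sq : (1 - Real.sqrt 2) ^ 2 = 2 * (1 - Real.sqrt 2) + 1 := by nlinarith [sq2]

lemma T_rec (β B : ℝ) (n : ℕ) : T β B (n + 2) = 2 * T β B (n + 1) + T β B n := by
  unfold T
  rw [pow_add (1 + Real.sqrt 2) n 2, pow_add (1 - Real.sqrt 2) n 2, al_sq, be_sq]
  ring

lemma T_zero (β B : ℝ) : T β B 0 = β + B := by unfold T; ring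

lemma T_one (β B : ℝ) : T β B 1 = β * (1 + Real.sqrt 2) + B * (1 - Real.sqrt 2) := by unfold T; ring

lemma T_H (n : ℕ) : T (1 / 2) (1 / 2) n = (H n : ℝ) := by
  induction n using Nat.twoStepInduction with
  | zero => rw [T_zero]; norm_num [H]
  | one => rw [T_one]; norm_num [H]; ring
  | more n h1 h2 =>
    rw [T_rec, h1, h2]
    show _ = ((2 * H (n + 1) + H n : ℕ) : ℝ)
    push_cast
    ring

lemma T_R (n : ℕ) : T (1 / (2 * Real.sqrt 2)) (-(1 / (2 * Real.sqrt 2))) n = (R n : ℝ) := by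
  induction n using Nat.twoStepInduction with
  | zero => rw [T_zero]; norm_num [R]
  | one =>
    rw [T_one]
    have := sq2_pos.ne'
    norm_num [R]
    field_simp
    ring
  | more n h1 h2 =>
    rw [T_rec, h1, h2]
    show _ = ((2 * R (n + 1) + R n : ℕ) : ℝ)
    push_cast
    ring

/-- addition of two indices -/
lemma H_succ (n : ℕ) : H (n + 1) = H n + 2 * R n ∧ R (n + 1) = H n + R n := by
  induction n with
  | zero => exact ⟨rfl, rfl⟩
  | succ n ih =>
    obtain ⟨h1, h2⟩ := ih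
    constructor
    · show 2 * H (n + 1) + H n = _
      omega
    · show 2 * R (n + 1) + R n = _
      omega

lemma norm_eq (n : ℕ) : (H n : ℤ) ^ 2 - 2 * (R n : ℤ) ^ 2 = (-1) ^ n := by
  induction n with
  | zero => norm_num [H, R]
  | succ n ih =>
    obtain ⟨h1, h2⟩ := H_succ n
    rw [h1, h2, pow_succ (-1 : ℤ) n, ← ih]
    push_cast
    ring

lemma H_pos (n : ℕ) : 0 < H n := by
  induction n with
  | zero => exact one_pos
  | succ n ih => rw [(H_succ n).1]; omega

lemma R_pos (n : ℕ) : 0 < R (n + 1) := by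
  rw [(H_succ n).2]
  have := H_pos n
  omega

/-- two steps -/
lemma two_steps (n : ℕ) : H (n + 2) = 3 * H n + 4 * R n ∧ R (n + 2) = 2 * H n + 3 * R n := by
  obtain ⟨h1, h2⟩ := H_succ n
  have h3 : H (n + 2) = H (n + 1) + 2 * R (n + 1) := (H_succ (n + 1)).1
  have h4 : R (n + 2) = H (n + 1) + R (n + 1) := (H_succ (n + 1)).2
  constructor <;> omega

/-- the positive solutions of the equation -/
lemma sol_iff (p r : ℕ) : Sol p r ↔ ∃ k : ℕ, p = H (2 * k + 1) ∧ r = R (2 * k + 1) := by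
  constructor
  · induction r using Nat.strong_induction_on generalizing p with
    | _ r ih =>
      rintro ⟨hp, hr, h⟩
      rcases Nat.lt_or_ge r 2 with h1 | h1
      · have hr1 : r = 1 := by omega
        refine ⟨0, ?_, by rw [hr1]; rfl⟩
        rw [hr1] at h
        have h2 : (p : ℤ) ^ 2 = 1 := by push_cast at h; linarith
        have h3 : (p : ℤ) = 1 := by
          have h4 : (0 : ℤ) < p := by exact_mod_cast hp
          nlinarith
        exact_mod_cast h3
      · have hp0 : (0 : ℤ) < p := by exact_mod_cast hp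
        have hr2 : (2 : ℤ) ≤ r := by exact_mod_cast h1
        have hpr : (r : ℤ) < p := by nlinarith
        have h2 : 4 * (r : ℤ) < 3 * p := by nlinarith
        have h3 : 2 * (p : ℤ) < 3 * r := by nlinarith
        have h2' : 4 * r < 3 * p := by exact_mod_cast h2
        have h3' : 2 * p < 3 * r := by exact_mod_cast h3
        have hpr' : r < p := by exact_mod_cast hpr
        obtain ⟨k, hk1, hk2⟩ := ih (3 * r - 2 * p) (by omega) (3 * p - 4 * r) ⟨by omega, by omega, by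
          rw [Nat.cast_sub h2'.le, Nat.cast_sub h3'.le]
          push_cast
          linear_combination h⟩
        refine ⟨k + 1, ?_, ?_⟩
        · have e : 2 * (k + 1) + 1 = (2 * k + 1) + 2 := by ring
          rw [e, (two_steps _).1, ← hk1, ← hk2]
          omega
        · have e : 2 * (k + 1) + 1 = (2 * k + 1) + 2 := by ring
          rw [e, (two_steps _).2, ← hk1, ← hk2]
          omega
  · rintro ⟨k, rfl, rfl⟩
    refine ⟨H_pos _, R_pos _, ?_⟩
    rw [norm_eq, pow_succ, pow_mul]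
    norm_num

lemma H_mono {m n : ℕ} (hm : 1 ≤ m) (h : m < n) : H m < H n := by
  induction n, h using Nat.le_induction with
  | base =>
    rw [(H_succ m).1]
    obtain ⟨k, rfl⟩ : ∃ k, m = k + 1 := ⟨m - 1, by omega⟩
    have := R_pos k
    omega
  | succ n hn ih =>
    rw [(H_succ n).1]
    omega

/-- `H a` divides `H (a b)` for odd `b` -/
lemma H_dvd (a j : ℕ) : H a ∣ H (a * (2 * j + 1)) := by
  set α := 1 + Real.sqrt 2 with hα
  set ψ := 1 - Real.sqrt 2 with hψ
  have hv : ∀ n : ℕ, (2 * (H n : ℤ) : ℝ) = α ^ n + ψ ^ n := by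
    intro n
    have h := T_H n
    unfold T at h
    push_cast
    rw [← h]
    ring
  have hm : α ^ a * ψ ^ a = (-1) ^ a := by rw [← mul_pow, al_mul]
  have key : ∀ j : ℕ, ∃ k : ℤ, (H (a * (2 * j + 1)) : ℤ) = k * H a := by
    intro j
    induction j using Nat.twoStepInduction with
    | zero => exact ⟨1, by simp⟩
    | one =>
      refine ⟨2 * H (2 * a) - (-1) ^ a, ?_⟩
      have h1 : (2 * ((H (a * (2 * 1 + 1)) : ℤ)) : ℝ) = 2 * (((2 * H (2 * a) - (-1) ^ a) * H a : ℤ) : ℝ) := by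
        have e1 := hv (2 * a)
        have e2 := hv a
        rw [hv]
        push_cast at e1 e2 ⊢
        have e3 : α ^ (a * (2 * 1 + 1)) + ψ ^ (a * (2 * 1 + 1)) = (α ^ (2 * a) + ψ ^ (2 * a)) *
            (α ^ a + ψ ^ a) - (α ^ a * ψ ^ a) * (α ^ a + ψ ^ a) := by ring
        rw [e3, hm, ← e1, ← e2]
        ring
      have h2 := mul_left_cancel₀ (two_ne_zero' ℝ) h1
      exact_mod_cast h2
    | more j h1 h2 =>
      obtain ⟨k1, hk1⟩ := h1
      obtain ⟨k2, hk2⟩ := h2
      refine ⟨2 * H (2 * a) * k2 - k1, ?_⟩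
      have h3 : (2 * ((H (a * (2 * (j + 2) + 1)) : ℤ)) : ℝ) =
          2 * (((2 * H (2 * a) * k2 - k1) * H a : ℤ) : ℝ) := by
        have e1 := hv (2 * a)
        have e2 := hv (a * (2 * (j + 1) + 1))
        have e4 := hv (a * (2 * j + 1))
        rw [hk2] at e2
        rw [hk1] at e4
        rw [hv]
        push_cast at e1 e2 e4 ⊢
        have e3 : α ^ (a * (2 * (j + 2) + 1)) + ψ ^ (a * (2 * (j + 2) + 1)) =
            (α ^ (2 * a) + ψ ^ (2 * a)) * (α ^ (a * (2 * (j + 1) + 1)) + ψ ^ (a * (2 * (j + 1) + 1))) -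
            (α ^ a * ψ ^ a) ^ 2 * (α ^ (a * (2 * j + 1)) + ψ ^ (a * (2 * j + 1))) := by ring
        rw [e3, hm, ← e1, ← e2, ← e4, ← pow_mul, mul_comm a 2, pow_mul]
        norm_num
        ring
      have h4 := mul_left_cancel₀ (two_ne_zero' ℝ) h3
      exact_mod_cast h4
  obtain ⟨k, hk⟩ := key j
  have : (H a : ℤ) ∣ (H (a * (2 * j + 1)) : ℤ) := ⟨k, by rw [hk]; ring⟩
  exact_mod_cast this

/-- the index of a prime `H n`, `n` odd, is prime -/
lemma index_prime {n : ℕ} (hodd : Odd n) (h : (H n).Prime) : n.Prime := by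
  by_contra hn
  obtain ⟨k, hk⟩ := hodd
  have hn1 : n ≠ 1 := by
    rintro rfl
    exact absurd h (by norm_num [H])
  have hn0 : n ≠ 0 := by omega
  have h2 : 2 ≤ n := by omega
  obtain ⟨a, ha1, ha2, ha3⟩ := (Nat.not_prime_iff_exists_dvd_ne h2).1 hn
  obtain ⟨b, hb⟩ := ha1
  have hbodd : ∃ j, b = 2 * j + 1 := by
    rcases Nat.even_or_odd b with ⟨c, hc⟩ | ⟨c, hc⟩
    · exfalso
      have : n = 2 * (a * c) := by rw [hb, hc]; ring
      omega
    · exact ⟨c, hc⟩
  obtain ⟨j, rfl⟩ := hbodd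
  have ha0 : 1 ≤ a := by
    rcases Nat.eq_zero_or_pos a with h0 | h0
    · rw [h0] at hb; omega
    · exact h0
  have hlt : a < n := lt_of_le_of_ne (Nat.le_of_dvd (by omega) ⟨_, hb⟩) ha3
  have hd := H_dvd a j
  rw [← hb] at hd
  rcases (Nat.dvd_prime h).1 hd with h3 | h3
  · have h4 : H 1 < H a := H_mono le_rfl (by omega)
    rw [h3] at h4
    norm_num [H] at h4
  · have := H_mono ha0 hlt
    omega

lemma U_eq (n : ℕ) : Pool.Agent.H447R2.ML.U 2 n = R n := by
  induction n using Nat.twoStepInduction with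
  | zero => rfl
  | one => rfl
  | more n h1 h2 =>
    rw [Pool.Agent.H447R2.ML.U_add_two, h1, h2]
    rfl

lemma V_eq' (n : ℕ) : Pool.Agent.H447R2.ML.V 2 n = 2 * H n := by
  induction n using Nat.twoStepInduction with
  | zero => rfl
  | one => rfl
  | more n h1 h2 =>
    rw [Pool.Agent.H447R2.ML.V_add_two, h1, h2]
    show _ = 2 * (2 * H (n + 1) + H n)
    ring

lemma W_H {p : ℕ} (hp : p.Prime) (h5 : 5 ≤ p) : W (1 / 2) (1 / 2) p = H p := by
  have h : Pool.Agent.H305R2.roughPart p ⌊T (1 / 2) (1 / 2) p⌋₊ = H p := by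
    rw [T_H, Nat.floor_natCast]
    refine Pool.Agent.H447R2.ML.roughPart_eq_self (H_pos p).ne' fun q hq h => ?_
    have hq2 : q ≠ 2 := by
      rintro rfl
      have h1 := norm_eq p
      obtain ⟨c, hc⟩ := h
      rw [hc, (hp.odd_of_ne_two (by omega)).neg_one_pow] at h1
      push_cast at h1
      have h2 : (2 : ℤ) * (2 * (c : ℤ) ^ 2 - (R p : ℤ) ^ 2) = -1 := by linear_combination h1
      omega
    refine Pool.Agent.H447R2.ML.lt_of_dvd_V 2 hp h5 ?_ hq ?_ ?_
    · intro h1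
      have := Nat.le_of_dvd (by norm_num) h1
      omega
    · intro h1
      exact hq2 ((Nat.prime_dvd_prime_iff_eq hq Nat.prime_two).1 h1)
    · rw [V_eq']
      exact h.mul_left 2
  exact h

lemma W_R {p : ℕ} (hp : p.Prime) (h5 : 5 ≤ p) :
    W (1 / (2 * Real.sqrt 2)) (-(1 / (2 * Real.sqrt 2))) p = R p := by
  have hd : ¬ p ∣ 2 ^ 2 + 4 := by
    intro h
    have h1 : p ∣ 2 := by
      have : p ∣ 2 ^ 3 := by simpa using h
      exact hp.dvd_of_dvd_pow this
    have := Nat.le_of_dvd (by norm_num) h1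
    omega
  have h := Pool.Agent.H447R2.ML.rough_U 2 two_pos hp h5 hd
    (x := T (1 / (2 * Real.sqrt 2)) (-(1 / (2 * Real.sqrt 2))) p) (by rw [T_R, U_eq])
  rw [U_eq] at h
  exact h

lemma H_inj {m n : ℕ} (hm : 1 ≤ m) (hn : 1 ≤ n) (h : H m = H n) : m = n := by
  rcases lt_trichotomy m n with h1 | h1 | h1
  · have := H_mono hm h1; omega
  · exact h1
  · have := H_mono hn h1; omega

/-- The second question in terms of exponents. -/
lemma q2_iff : {z : ℕ × ℕ | Sol z.1 z.2 ∧ z.1.Prime ∧ z.2.Prime}.Infinite ↔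
    {n : ℕ | n.Prime ∧ (W (1 / 2) (1 / 2) n).Prime ∧
      (W (1 / (2 * Real.sqrt 2)) (-(1 / (2 * Real.sqrt 2))) n).Prime}.Infinite := by
  constructor
  · intro hi hf
    refine hi (((hf.union (Set.finite_Iio 5)).image (fun n => (H n, R n))).subset ?_)
    rintro ⟨p, r⟩ ⟨hs, hp, hr⟩
    obtain ⟨k, hk1, hk2⟩ := (sol_iff p r).1 hs
    simp only at hk1 hk2 hp hr
    rw [hk1] at hp
    rw [hk2] at hr
    have h1 := index_prime ⟨k, rfl⟩ hp
    refine ⟨2 * k + 1, ?_, by rw [hk1, hk2]⟩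
    rcases lt_or_ge (2 * k + 1) 5 with h2 | h2
    · exact Or.inr h2
    · refine Or.inl ⟨h1, ?_, ?_⟩
      · rw [W_H h1 h2]
        exact hp
      · rw [W_R h1 h2]
        exact hr
  · intro hi hf
    have hinj : Set.InjOn (fun n : ℕ => (H n, R n)) (Set.Ici 1) := by
      intro m hm n hn h
      exact H_inj hm hn (congrArg Prod.fst h)
    refine hi ((Set.Finite.of_finite_image (hf.subset ?_) (hinj.mono
      (Set.inter_subset_right (s := {n : ℕ | n.Prime ∧ 5 ≤ n ∧
        (W (1 / 2) (1 / 2) n).Prime ∧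
        (W (1 / (2 * Real.sqrt 2)) (-(1 / (2 * Real.sqrt 2))) n).Prime})))).union
        (Set.finite_Iio 5) |>.subset ?_)
    · rintro _ ⟨n, ⟨⟨hn, h5, hW, hW'⟩, _⟩, rfl⟩
      have hodd := hn.odd_of_ne_two (by omega)
      obtain ⟨k, hk⟩ := hodd
      refine ⟨(sol_iff _ _).2 ⟨k, by rw [← hk], by rw [← hk]⟩, ?_, ?_⟩
      · rw [W_H hn h5] at hW
        exact hW
      · rw [W_R hn h5] at hW'
        exact hW'
    · rintro n ⟨hn, hW⟩
      rcases lt_or_ge n 5 with h2 | h2
      · exact Or.inr h2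
      · exact Or.inl ⟨⟨hn, h2, hW⟩, by simp only [Set.mem_Ici]; omega⟩

end Pool.Agent.V1193.BP.Pell
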