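import Pool.Agent.V1193.BP.E
import Pool.Agent.V1193.BP.P

set_option autoImplicit false

/-! Both values prime: the laws for real bases and amplitudes. -/

namespace Pool.Agent.V1193.BP

open Finset Filter Topology MeasureTheory
open Pool.Agent.H305R2 (ff roughPart NN)
open Pool.Agent.V1193.FM (g)
open Pool.Agent.Y122.PC (Bx measurable_Bx vol_Bx eg)
open Pool.Agent.V1193.LE (T Last)

/-- the rough part of the largest integer below `β * α ^ n` -/
noncomputable def VV (α β : ℝ) (n : ℕ) : ℕ := roughPart n (⌈β * α ^ n⌉₊ - 1)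

/-- the rough part of the smallest integer not below `β * α ^ n` -/
noncomputable def UU (α β : ℝ) (n : ℕ) : ℕ := roughPart n ⌈β * α ^ n⌉₊

/-- the exponents -/
def NB (S : Set ℕ) (α β δ : ℝ) : Set ℕ := {n | n ∈ S ∧ (VV α β n).Prime ∧ (UU α δ n).Prime}

lemma exp_arg (x y : ℝ) (n : ℕ) : Real.exp (n * x + y) = Real.exp y * Real.exp x ^ n := by
  rw [Real.exp_add, Real.exp_nat_mul]
  ring

lemma ff_iff (x y : ℝ) (n : ℕ) : ff n (n * x + y) = 1 ↔ (VV (Real.exp x) (Real.exp y) n).Prime := by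
  unfold ff NN VV
  rw [exp_arg]
  split_ifs with h <;> simp [h]

lemma g_iff (x y : ℝ) (n : ℕ) : g n (n * x + y) = 1 ↔ (UU (Real.exp x) (Real.exp y) n).Prime := by
  unfold g NN UU
  rw [exp_arg]
  have h0 : 0 < ⌈Real.exp y * Real.exp x ^ n⌉₊ := Nat.ceil_pos.2 (by positivity)
  rw [show ⌈Real.exp y * Real.exp x ^ n⌉₊ - 1 + 1 = ⌈Real.exp y * Real.exp x ^ n⌉₊ by omega]
  split_ifs with h <;> simp [h]

lemma mem_EE (S : Set ℕ) (z : ℝ × ℝ × ℝ) (n : ℕ) :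
    z ∈ EE S n ↔ n ∈ NB S (Real.exp z.1) (Real.exp z.2.1) (Real.exp z.2.2) := by
  unfold EE NB
  simp only [Set.mem_ofPred_eq, ff_iff, g_iff]

lemma mem_EF (S : Set ℕ) (x : ℝ) (w : ℝ × ℝ) (n : ℕ) :
    w ∈ EF S x n ↔ n ∈ NB S (Real.exp x) (Real.exp w.1) (Real.exp w.2) := by
  unfold EF NB
  simp only [Set.mem_ofPred_eq, ff_iff, g_iff]

lemma real_box (x0 x1 y0 y1 u0 u1 : ℝ) (A : Set (ℝ × ℝ × ℝ)) :
    (volume.restrict (B3 x0 x1 y0 y1 u0 u1)).real A =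
      volume.real {z | z ∈ Set.Ioc x0 x1 ×ˢ (Set.Ioc y0 y1 ×ˢ Set.Ioc u0 u1) ∧ z ∈ A} := by
  rw [measureReal_restrict_apply' (measurable_B3 _ _ _ _ _ _)]
  congr 1
  ext z
  exact and_comm

lemma real_box2 (y0 y1 u0 u1 : ℝ) (A : Set (ℝ × ℝ)) :
    (volume.restrict (Bx y0 y1 u0 u1)).real A =
      volume.real {z | z ∈ Set.Ioc y0 y1 ×ˢ Set.Ioc u0 u1 ∧ z ∈ A} := by
  rw [measureReal_restrict_apply' (measurable_Bx _ _ _ _)]
  congr 1
  ext z
  exact and_comm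

theorem laws {x0 x1 y0 y1 u0 u1 : ℝ} (hx0 : 0 < x0) (hx : x0 < x1) (hy : y0 < y1) (hu : u0 < u1)
    {S : Set ℕ} (hinf : S.Infinite) :
    Tendsto (fun n : ℕ => volume.real {z ∈ Set.Ioc x0 x1 ×ˢ (Set.Ioc y0 y1 ×ˢ Set.Ioc u0 u1) |
      n ∈ NB S (Real.exp z.1) (Real.exp z.2.1) (Real.exp z.2.2)} / (Real.log n / n) ^ 2)
      (atTop ⊓ 𝓟 S) (𝓝 (T3 x0 x1 y0 y1 u0 u1)) ∧
    Tendsto (fun n : ℕ => volume.real {z ∈ Set.Ioc x0 x1 ×ˢ (Set.Ioc y0 y1 ×ˢ Set.Ioc u0 u1) |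
      IsGreatest (NB S (Real.exp z.1) (Real.exp z.2.1) (Real.exp z.2.2)) n} / (Real.log n / n) ^ 2)
      (atTop ⊓ 𝓟 S) (𝓝 (T3 x0 x1 y0 y1 u0 u1)) ∧
    Tendsto (fun n : ℕ => volume.real {z ∈ Set.Ioc x0 x1 ×ˢ (Set.Ioc y0 y1 ×ˢ Set.Ioc u0 u1) |
      ∃ m ∈ NB S (Real.exp z.1) (Real.exp z.2.1) (Real.exp z.2.2), n ≤ m} / T (w2 S) n)
      atTop (𝓝 (T3 x0 x1 y0 y1 u0 u1)) ∧
    Tendsto (fun n : ℕ => (∫ z in Set.Ioc x0 x1 ×ˢ (Set.Ioc y0 y1 ×ˢ Set.Ioc u0 u1),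
      ((NB S (Real.exp z.1) (Real.exp z.2.1) (Real.exp z.2.2) ∩ Set.Ici n).ncard : ℝ)) / T (w2 S) n)
      atTop (𝓝 (T3 x0 x1 y0 y1 u0 u1)) ∧
    ∃ K : ℝ, ∀ᶠ n : ℕ in atTop,
      volume.real {z ∈ Set.Ioc x0 x1 ×ˢ (Set.Ioc y0 y1 ×ˢ Set.Ioc u0 u1) |
        ∃ p ∈ NB S (Real.exp z.1) (Real.exp z.2.1) (Real.exp z.2.2),
        ∃ q ∈ NB S (Real.exp z.1) (Real.exp z.2.1) (Real.exp z.2.2), n ≤ p ∧ p < q} ≤
        K * (n : ℝ) ^ (-(1 / 4 : ℝ)) * T (w2 S) n := by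
  obtain ⟨h1, h2, h3, h4, K, h5⟩ := final3 hx0 hx hy hu hinf
  have hww : ∀ n ∈ S, w2 S n = (Real.log n / n) ^ 2 := fun n hn => Set.indicator_of_mem hn _
  refine ⟨?_, ?_, ?_, ?_, K, ?_⟩
  · refine h1.congr' ?_
    rw [EventuallyEq, eventually_inf_principal]
    refine Eventually.of_forall fun n hn => ?_
    rw [hww n hn, real_box]
    congr 2
    ext z
    exact and_congr_right fun _ => mem_EE S z n
  · refine h2.congr' ?_
    rw [EventuallyEq, eventually_inf_principal]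
    refine Eventually.of_forall fun n hn => ?_
    rw [hww n hn, real_box]
    congr 2
    ext z
    refine and_congr_right fun _ => ?_
    have : {k | z ∈ EE S k} = NB S (Real.exp z.1) (Real.exp z.2.1) (Real.exp z.2.2) := by
      ext k; exact mem_EE S z k
    show IsGreatest {k | z ∈ EE S k} n ↔ _
    rw [this]
  · refine h3.congr fun n => ?_
    rw [real_box]
    congr 2
    ext z
    refine and_congr_right fun _ => ?_
    constructor
    · rintro ⟨m, h6, h7⟩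
      exact ⟨m, (mem_EE S z m).1 h7, h6⟩
    · rintro ⟨m, h7, h6⟩
      exact ⟨m, h6, (mem_EE S z m).2 h7⟩
  · refine h4.congr fun n => ?_
    congr 1
    refine integral_congr_ae (Eventually.of_forall fun z => ?_)
    simp only
    congr 2
    ext m
    constructor
    · rintro ⟨h6, h7⟩
      exact ⟨(mem_EE S z m).1 h7, h6⟩
    · rintro ⟨h7, h6⟩
      exact ⟨h6, (mem_EE S z m).2 h7⟩
  · filter_upwards [h5] with n hn
    rw [real_box] at hn
    refine le_trans (le_of_eq ?_) hn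
    congr 1
    ext z
    refine and_congr_right fun _ => ?_
    constructor
    · rintro ⟨p, h6, q, h7, h8, h9⟩
      exact ⟨p, q, h8, h9, (mem_EE S z p).2 h6, (mem_EE S z q).2 h7⟩
    · rintro ⟨p, q, h8, h9, h6, h7⟩
      exact ⟨p, (mem_EE S z p).1 h6, q, (mem_EE S z q).1 h7, h8, h9⟩

theorem fin_all (S : Set ℕ) : ∀ᵐ z : ℝ × ℝ × ℝ, 0 < z.1 →
    (NB S (Real.exp z.1) (Real.exp z.2.1) (Real.exp z.2.2)).Finite := by
  filter_upwards [finite_ae S] with z hz h0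
  have : {k | z ∈ EE S k} = NB S (Real.exp z.1) (Real.exp z.2.1) (Real.exp z.2.2) := by
    ext k; exact mem_EE S z k
  rw [← this]
  exact hz h0

theorem fixed {α : ℝ} (hα : 1 < α) (S : Set ℕ) :
    (∀ᵐ w : ℝ × ℝ, (NB S α (Real.exp w.1) (Real.exp w.2)).Finite) ∧
    (S.Infinite → ∀ y0 y1 u0 u1 : ℝ, y0 < y1 → u0 < u1 →
      Tendsto (fun n : ℕ => volume.real {w ∈ Set.Ioc y0 y1 ×ˢ Set.Ioc u0 u1 |
        n ∈ NB S α (Real.exp w.1) (Real.exp w.2)} / (Real.log n / n) ^ 2)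
        (atTop ⊓ 𝓟 S) (𝓝 ((eg * (y1 - y0) / Real.log α) * (eg * (u1 - u0) / Real.log α))) ∧
      Tendsto (fun n : ℕ => (∫ w in Set.Ioc y0 y1 ×ˢ Set.Ioc u0 u1,
        ((NB S α (Real.exp w.1) (Real.exp w.2) ∩ Set.Ici n).ncard : ℝ)) / T (w2 S) n)
        atTop (𝓝 ((eg * (y1 - y0) / Real.log α) * (eg * (u1 - u0) / Real.log α)))) := by
  obtain ⟨x, hx, rfl⟩ : ∃ x, 0 < x ∧ α = Real.exp x :=
    ⟨Real.log α, Real.log_pos hα, (Real.exp_log (by linarith)).symm⟩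
  rw [Real.log_exp]
  refine ⟨?_, fun hinf y0 y1 u0 u1 hy hu => ⟨?_, ?_⟩⟩
  · filter_upwards [finite_ae_F hx S] with w hw
    have : {k | w ∈ EF S x k} = NB S (Real.exp x) (Real.exp w.1) (Real.exp w.2) := by
      ext k; exact mem_EF S x w k
    rw [← this]
    exact hw
  · refine (ratio_S (one_law_F hx hy hu S)).congr' ?_
    rw [EventuallyEq, eventually_inf_principal]
    refine Eventually.of_forall fun n hn => ?_
    have hww : w2 S n = (Real.log n / n) ^ 2 := Set.indicator_of_mem hn _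
    rw [hww, real_box2]
    congr 2
    ext z
    exact and_congr_right fun _ => mem_EF S x z n
  · refine (mean_F hx hy hu hinf).congr fun n => ?_
    congr 1
    refine integral_congr_ae (Eventually.of_forall fun z => ?_)
    simp only
    congr 2
    ext m
    constructor
    · rintro ⟨h6, h7⟩
      exact ⟨(mem_EF S x z m).1 h7, h6⟩
    · rintro ⟨h7, h6⟩
      exact ⟨h6, (mem_EF S x z m).2 h7⟩

/-! ### The special point -/

open _root_.Pool.Agent.V1193.BP.Pell in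
lemma special {n : ℕ} (hn : n.Prime) (h5 : 5 ≤ n) :
    VV (1 + Real.sqrt 2) (1 / 2) n = Pell.H n ∧
      UU (1 + Real.sqrt 2) (1 / (2 * Real.sqrt 2)) n = Pell.R n := by
  have hodd : Odd n := hn.odd_of_ne_two (by omega)
  have hs1 : 1 < Real.sqrt 2 := by
    rw [Real.lt_sqrt] <;> norm_num
  have hs2 : Real.sqrt 2 < 2 := by
    rw [Real.sqrt_lt'] <;> norm_num
  have hneg : (1 - Real.sqrt 2) ^ n < 0 := hodd.pow_neg (by linarith)
  have hgt : -1 < (1 - Real.sqrt 2) ^ n := by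
    have h1 : (1 - Real.sqrt 2) ^ n = -((Real.sqrt 2 - 1) ^ n) := by
      rw [← hodd.neg_pow]
      ring
    have h2 : (Real.sqrt 2 - 1) ^ n < 1 := pow_lt_one₀ (by linarith) (by linarith) (by omega)
    rw [h1]; linarith
  have eH := T_H n
  have eR := T_R n
  unfold Pell.T at eH eR
  constructor
  · have hc : ⌈1 / 2 * (1 + Real.sqrt 2) ^ n⌉₊ = Pell.H n + 1 := by
      rw [Nat.ceil_eq_iff (by omega)]
      constructor
      · rw [Nat.add_sub_cancel]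
        linarith
      · push_cast
        linarith
    unfold VV
    rw [hc, Nat.add_sub_cancel]
    have h := W_H hn h5
    unfold Pell.W at h
    rw [T_H, Nat.floor_natCast] at h
    exact h
  · have hc : ⌈1 / (2 * Real.sqrt 2) * (1 + Real.sqrt 2) ^ n⌉₊ = Pell.R n := by
      have hR : 0 < Pell.R n := by
        obtain ⟨m, rfl⟩ : ∃ m, n = m + 1 := ⟨n - 1, by omega⟩
        exact Pell.R_pos m
      have hd : 0 < 1 / (2 * Real.sqrt 2) := by positivity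
      have hd1 : 1 / (2 * Real.sqrt 2) < 1 := by
        rw [div_lt_one (by positivity)]; linarith
      rw [Nat.ceil_eq_iff (by omega)]
      constructor
      · rw [Nat.cast_sub (by omega), ← eR]
        push_cast
        nlinarith
      · rw [← eR]
        nlinarith
    unfold UU
    rw [hc]
    have h := W_R hn h5
    unfold Pell.W at h
    rw [T_R, Nat.floor_natCast] at h
    exact h

open _root_.Pool.Agent.V1193.BP.Pell in
lemma q2 : {z : ℕ × ℕ | Pell.Sol z.1 z.2 ∧ z.1.Prime ∧ z.2.Prime}.Infinite ↔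
    (NB {n | n.Prime} (1 + Real.sqrt 2) (1 / 2) (1 / (2 * Real.sqrt 2))).Infinite := by
  rw [q2_iff]
  have key : ∀ n : ℕ, n.Prime → 5 ≤ n →
      ((Pell.W (1 / 2) (1 / 2) n).Prime ∧
        (Pell.W (1 / (2 * Real.sqrt 2)) (-(1 / (2 * Real.sqrt 2))) n).Prime ↔
      (VV (1 + Real.sqrt 2) (1 / 2) n).Prime ∧
        (UU (1 + Real.sqrt 2) (1 / (2 * Real.sqrt 2)) n).Prime) := by
    intro n hn h5
    rw [W_H hn h5, W_R hn h5, (special hn h5).1, (special hn h5).2]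
  constructor
  · intro hi hf
    refine hi ((hf.union (Set.finite_Iio 5)).subset ?_)
    rintro n ⟨hn, h1, h2⟩
    rcases lt_or_ge n 5 with h3 | h3
    · exact Or.inr h3
    · exact Or.inl ⟨hn, (key n hn h3).1 ⟨h1, h2⟩⟩
  · intro hi hf
    refine hi ((hf.union (Set.finite_Iio 5)).subset ?_)
    rintro n ⟨hn, h1, h2⟩
    rcases lt_or_ge n 5 with h3 | h3
    · exact Or.inr h3
    · exact Or.inl ⟨hn, (key n hn h3).2 ⟨h1, h2⟩⟩

end Pool.Agent.V1193.BP
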