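import Pool.Agent.V1193.FM.E

set_option autoImplicit false

/-! Pairs of indices with a gap at least the square root. -/

namespace Pool.Agent.V1193.BP

open Finset Filter Topology MeasureTheory
open Pool.Agent.H305R2 (NN roughPart measurable_NN ff ff_nonneg ff_le_one integrableOn_ff
  mem_Ioc_log)
open Pool.Agent.V1193.FM (g g_nonneg g_le_one measurable_g integrableOn_g compare g_bound log_step
  g_val integrableOn_gg)

/-- the bound on one cell -/
lemma cellg2 {c : ℝ} (hc : 0 < c) : ∃ K : ℝ, 0 < K ∧ ∀ᶠ q : ℕ in atTop, ∀ C : ℝ,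
    c * √(q : ℝ) ≤ C → ∀ N : ℕ, 1 ≤ N →
    ∫ t in Set.Ioc (Real.log N) (Real.log ((N + 1 : ℕ) : ℝ)), g q (t + C) ≤
      K * (Real.log q / √(q : ℝ)) * (Real.log ((N + 1 : ℕ) : ℝ) - Real.log N) := by
  obtain ⟨K1, hK1, hev⟩ := Pool.Agent.H447R2.ML.short_interval
  refine ⟨2 * K1 / c + 4 / c, by positivity, ?_⟩
  have hsq : Tendsto (fun q : ℕ => √(q : ℝ)) atTop atTop :=
    Real.tendsto_sqrt_atTop.comp (tendsto_natCast_atTop_atTop (R := ℝ))
  have hlog2 : ∀ᶠ q : ℕ in atTop, (Real.log q) ^ 2 ≤ c / 64 * √(q : ℝ) := by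
    have h := (Real.isLittleO_pow_log_id_atTop (n := 2)).bound (show 0 < c / 256 by positivity)
    have h' := hsq.eventually h
    filter_upwards [h', eventually_ge_atTop 1] with q hq hq1
    simp only [id, norm_pow, Real.norm_eq_abs, sq_abs, abs_of_nonneg (Real.sqrt_nonneg _)] at hq
    have e : Real.log q = 2 * Real.log √(q : ℝ) := by
      rw [Real.log_sqrt (Nat.cast_nonneg q)]; ring
    rw [e]
    nlinarith
  have hlarge : ∀ᶠ q : ℕ in atTop, 2 / c < √(q : ℝ) := hsq.eventually_gt_atTop _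
  filter_upwards [hev, hlog2, hlarge, eventually_ge_atTop 3] with q hq hq2 hq4 hq3 C hC N hN
  have hq3' : (3 : ℝ) ≤ q := by exact_mod_cast hq3
  have hq0 : (0 : ℝ) < q := by linarith
  set s := √(q : ℝ) with hs
  have hs0 : 0 < s := Real.sqrt_pos.2 hq0
  have hlog : 1 ≤ Real.log q := by
    rw [Real.le_log_iff_exp_le hq0]
    have := Real.exp_one_lt_d9
    linarith
  have hN1 : (1 : ℝ) ≤ N := by exact_mod_cast hN
  have hN0 : (0 : ℝ) < N := by linarith
  obtain ⟨hs1, hs2⟩ := log_step hN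
  set h := Real.log ((N + 1 : ℕ) : ℝ) - Real.log N with hh
  have hh0 : 0 < h := lt_of_lt_of_le (by positivity) hs1
  have hcq : 2 ≤ c * s := by
    rw [div_lt_iff₀ hc] at hq4
    linarith
  have hle : Real.log N ≤ Real.log ((N + 1 : ℕ) : ℝ) := by linarith
  have e1 : ∫ t in Set.Ioc (Real.log N) (Real.log ((N + 1 : ℕ) : ℝ)), g q (t + C) =
      ∫ t in Set.Ioc (Real.log N + C) (Real.log N + C + h), g q t := by
    rw [← intervalIntegral.integral_of_le hle, ← intervalIntegral.integral_of_le (by linarith),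
      intervalIntegral.integral_comp_add_right]
    congr 1
    rw [hh]; ring
  rw [e1]
  have h3 := (abs_le.1 (compare q (show Real.log N + C ≤ Real.log N + C + h by linarith))).2
  -- the exponent
  have hU : c / 2 * s ≤ Real.log N + C + Real.log h := by
    have h6 : Real.log (1 / (2 * (N : ℝ))) ≤ Real.log h := Real.log_le_log (by positivity) hs1
    rw [one_div, Real.log_inv, Real.log_mul (by norm_num) hN0.ne'] at h6
    have := Real.log_two_lt_d9
    linarith
  have h32 : 32 * (Real.log q * Real.log (Real.log q)) ≤ Real.log N + C + Real.log h := by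
    refine le_trans ?_ hU
    have h7 : Real.log (Real.log q) ≤ Real.log q := by
      have := Real.log_le_sub_one_of_pos (show 0 < Real.log q by linarith)
      linarith
    have h8 : Real.log q * Real.log (Real.log q) ≤ (Real.log q) ^ 2 := by
      rw [sq]; exact mul_le_mul_of_nonneg_left h7 (by linarith)
    linarith
  have h4 := hq (Real.log N + C) h hh0 hs2 h32
  have h5 : Real.log q / (Real.log N + C + Real.log h) ≤ 2 / c * (Real.log q / s) := by
    have h8 : 2 / c * (Real.log q / s) = Real.log q / (c / 2 * s) := by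
      field_simp
    rw [h8]
    exact div_le_div_of_nonneg_left (by linarith) (by positivity) hU
  have h9 : Real.exp (-(Real.log N + C)) ≤ 2 * h * (1 / c * (Real.log q / s)) := by
    have h10 : Real.exp (-(Real.log N + C)) = 1 / N * Real.exp (-C) := by
      rw [neg_add, Real.exp_add, Real.exp_neg, Real.exp_log hN0, one_div]
    have h11 : Real.exp (-C) ≤ Real.exp (-(c * s)) := Real.exp_le_exp.2 (by linarith)
    have h12 : Real.exp (-(c * s)) ≤ 1 / c * (Real.log q / s) := by
      have h13 : c * s ≤ Real.exp (c * s) := by linarith [Real.add_one_le_exp (c * s)]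
      rw [Real.exp_neg, show 1 / c * (Real.log q / s) = Real.log q / (c * s) by field_simp]
      rw [← one_div]
      exact div_le_div₀ (by linarith) hlog (by positivity) h13
    have h14 : 1 / (N : ℝ) ≤ 2 * h := by
      have : 1 / (N : ℝ) = 2 * (1 / (2 * (N : ℝ))) := by field_simp
      linarith
    rw [h10]
    exact mul_le_mul h14 (h11.trans h12) (Real.exp_pos _).le (by linarith)
  have h15 : K1 * h * (Real.log q / (Real.log N + C + Real.log h)) ≤
      K1 * h * (2 / c * (Real.log q / s)) := mul_le_mul_of_nonneg_left h5 (by positivity)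
  calc ∫ t in Set.Ioc (Real.log N + C) (Real.log N + C + h), g q t ≤
      K1 * h * (2 / c * (Real.log q / s)) + 2 * (2 * h * (1 / c * (Real.log q / s))) := by linarith
    _ = _ := by ring

/-- two indices in one window -/
theorem pairg2 {c : ℝ} (hc : 0 < c) : ∃ K : ℝ, 0 < K ∧ ∀ᶠ p : ℕ in atTop, ∀ q : ℕ, p < q →
    ∀ C : ℝ, c * √(q : ℝ) ≤ C → ∀ u v : ℝ, c * p + 2 ≤ u → u ≤ v →
    ∫ t in Set.Ioc u v, g p t * g q (t + C) ≤
      K * ((v - u) + 3) * (Real.log p / p) * (Real.log q / √(q : ℝ)) := by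
  obtain ⟨K1, hK1, hev1⟩ := cellg2 hc
  obtain ⟨K2, hK2, hev2⟩ := g_bound hc
  obtain ⟨P1, hP1⟩ := eventually_atTop.1 hev1
  refine ⟨K1 * K2, by positivity, ?_⟩
  filter_upwards [hev2, eventually_ge_atTop (max P1 3)] with p hp hpm q hpq C hC u v hu huv
  have hp3 : 3 ≤ p := le_trans (le_max_right _ _) hpm
  have hp3' : (3 : ℝ) ≤ p := by exact_mod_cast hp3
  have hp0 : (0 : ℝ) < p := by linarith
  have hq := hP1 q (by have := le_max_left P1 3; omega) C hC
  have hq3' : (3 : ℝ) ≤ q := by exact_mod_cast (by omega : 3 ≤ q)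
  have hlp : 0 ≤ Real.log p / p := div_nonneg (Real.log_nonneg (by linarith)) hp0.le
  have hlq : 0 ≤ Real.log q / √(q : ℝ) := div_nonneg (Real.log_nonneg (by linarith)) (Real.sqrt_nonneg _)
  have hcp : 0 < c * p := by positivity
  set N0 := ⌊Real.exp u⌋₊ with hN0
  set N1 := ⌊Real.exp v⌋₊ with hN1
  have hN0p : 1 ≤ N0 := Nat.floor_pos.2 (Real.one_le_exp (by linarith))
  have hN01 : N0 ≤ N1 := Nat.floor_mono (Real.exp_le_exp.2 huv)
  have hN0r : (1 : ℝ) ≤ N0 := by exact_mod_cast hN0p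
  have hN1r : (1 : ℝ) ≤ N1 := by exact_mod_cast hN0p.trans hN01
  have hl0 : Real.log N0 ≤ u := by
    rw [Real.log_le_iff_le_exp (by linarith)]
    exact Nat.floor_le (Real.exp_pos _).le
  have hl1 : v ≤ Real.log ((N1 + 1 : ℕ) : ℝ) := by
    rw [Real.le_log_iff_exp_le (by positivity)]
    push_cast
    exact (Nat.lt_floor_add_one _).le
  have hexp1 : (2 : ℝ) ≤ Real.exp 1 := by have := Real.exp_one_gt_d9; linarith
  have hl0' : u - 1 ≤ Real.log N0 := by
    rw [Real.le_log_iff_exp_le (by linarith), Real.exp_sub, div_le_iff₀ (Real.exp_pos 1)]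
    have := Nat.lt_floor_add_one (Real.exp u)
    rw [← hN0] at this
    nlinarith
  have hl1' : Real.log ((N1 + 1 : ℕ) : ℝ) ≤ v + 1 := by
    rw [Real.log_le_iff_le_exp (by positivity), Real.exp_add]
    push_cast
    have : (N1 : ℝ) ≤ Real.exp v := Nat.floor_le (Real.exp_pos _).le
    nlinarith [Real.exp_pos v, Real.one_le_exp (show 0 ≤ v by linarith)]
  have hbig : ∫ t in Set.Ioc u v, g p t * g q (t + C) ≤
      ∫ t in Set.Ioc (Real.log N0) (Real.log ((N1 + 1 : ℕ) : ℝ)), g p t * g q (t + C) := by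
    refine setIntegral_mono_set (integrableOn_gg p q C _ _) ?_ ?_
    · exact Eventually.of_forall fun x => mul_nonneg (g_nonneg p _) (g_nonneg q _)
    · exact (Set.Ioc_subset_Ioc hl0 hl1).eventuallyLE
  have hmon : ∀ N : ℕ, N0 ≤ N → Real.log (N : ℝ) ≤ Real.log ((N + 1 : ℕ) : ℝ) := by
    intro N hN
    have : (N0 : ℝ) ≤ N := by exact_mod_cast hN
    exact Real.log_le_log (by linarith) (by push_cast; linarith)
  have hiiG : ∀ N ∈ Set.Ico N0 (N1 + 1), IntervalIntegrable (fun t => g p t * g q (t + C)) volume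
      (Real.log (N : ℝ)) (Real.log ((N + 1 : ℕ) : ℝ)) := by
    intro N hN
    rw [intervalIntegrable_iff_integrableOn_Ioc_of_le (hmon N hN.1)]
    exact integrableOn_gg p q C _ _
  have hiiF : ∀ N ∈ Set.Ico N0 (N1 + 1), IntervalIntegrable (fun t => g p t) volume
      (Real.log (N : ℝ)) (Real.log ((N + 1 : ℕ) : ℝ)) := by
    intro N hN
    rw [intervalIntegrable_iff_integrableOn_Ioc_of_le (hmon N hN.1)]
    exact integrableOn_g p _ _
  have hsumG := intervalIntegral.sum_integral_adjacent_intervals_Ico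
    (a := fun N : ℕ => Real.log (N : ℝ)) (m := N0) (n := N1 + 1) (by omega) hiiG
  have hsumF := intervalIntegral.sum_integral_adjacent_intervals_Ico
    (a := fun N : ℕ => Real.log (N : ℝ)) (m := N0) (n := N1 + 1) (by omega) hiiF
  have h01 : Real.log (N0 : ℝ) ≤ Real.log ((N1 + 1 : ℕ) : ℝ) := by linarith
  rw [intervalIntegral.integral_of_le h01] at hsumG hsumF
  have hcell : ∀ N ∈ Finset.Ico N0 (N1 + 1),
      ∫ t in (Real.log (N : ℝ))..(Real.log ((N + 1 : ℕ) : ℝ)), g p t * g q (t + C) ≤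
      K1 * (Real.log q / √(q : ℝ)) * ∫ t in (Real.log (N : ℝ))..(Real.log ((N + 1 : ℕ) : ℝ)), g p t := by
    intro N hN
    rw [Finset.mem_Ico] at hN
    have hNp : 1 ≤ N := hN0p.trans hN.1
    rw [intervalIntegral.integral_of_le (hmon N hN.1), intervalIntegral.integral_of_le (hmon N hN.1)]
    set a : ℝ := if (roughPart p (N + 1)).Prime then 1 else 0 with ha
    have ha0 : 0 ≤ a := by rw [ha]; split_ifs <;> norm_num
    have e3 : ∫ t in Set.Ioc (Real.log (N : ℝ)) (Real.log ((N + 1 : ℕ) : ℝ)),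
        g p t * g q (t + C) = a * ∫ t in Set.Ioc (Real.log (N : ℝ)) (Real.log ((N + 1 : ℕ) : ℝ)),
        g q (t + C) := by
      rw [← integral_const_mul]
      exact setIntegral_congr_fun measurableSet_Ioc fun t ht => by
        simp only [g_val hNp ht p, ha]
    have e4 : ∫ t in Set.Ioc (Real.log (N : ℝ)) (Real.log ((N + 1 : ℕ) : ℝ)), g p t =
        a * (Real.log ((N + 1 : ℕ) : ℝ) - Real.log N) := by
      have : ∫ t in Set.Ioc (Real.log (N : ℝ)) (Real.log ((N + 1 : ℕ) : ℝ)), g p t =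
          ∫ t in Set.Ioc (Real.log (N : ℝ)) (Real.log ((N + 1 : ℕ) : ℝ)), a :=
        setIntegral_congr_fun measurableSet_Ioc fun t ht => g_val hNp ht p
      rw [this, setIntegral_const, smul_eq_mul, Real.volume_real_Ioc_of_le (hmon N hN.1)]
      ring
    rw [e3, e4]
    calc a * ∫ t in Set.Ioc (Real.log (N : ℝ)) (Real.log ((N + 1 : ℕ) : ℝ)), g q (t + C) ≤
        a * (K1 * (Real.log q / √(q : ℝ)) * (Real.log ((N + 1 : ℕ) : ℝ) - Real.log N)) :=
          mul_le_mul_of_nonneg_left (hq N hNp) ha0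
      _ = _ := by ring
  have hall : ∫ t in Set.Ioc (Real.log N0) (Real.log ((N1 + 1 : ℕ) : ℝ)), g p t * g q (t + C) ≤
      K1 * (Real.log q / √(q : ℝ)) * ∫ t in Set.Ioc (Real.log N0) (Real.log ((N1 + 1 : ℕ) : ℝ)), g p t := by
    rw [← hsumG, ← hsumF, Finset.mul_sum]
    exact Finset.sum_le_sum hcell
  have hone := hp (Real.log N0) (Real.log ((N1 + 1 : ℕ) : ℝ)) (by linarith) h01
  have h1p : 1 / (p : ℝ) ≤ 1 := by rw [div_le_one hp0]; linarith
  have hone' : ∫ t in Set.Ioc (Real.log N0) (Real.log ((N1 + 1 : ℕ) : ℝ)), g p t ≤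
      K2 * ((v - u) + 3) * (Real.log p / p) := by
    refine hone.trans (mul_le_mul_of_nonneg_right (mul_le_mul_of_nonneg_left ?_ hK2.le) hlp)
    linarith
  calc _ ≤ K1 * (Real.log q / √(q : ℝ)) * (K2 * ((v - u) + 3) * (Real.log p / p)) :=
        (hbig.trans hall).trans (mul_le_mul_of_nonneg_left hone' (mul_nonneg hK1.le hlq))
    _ = _ := by ring

end Pool.Agent.V1193.BP
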