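import Pool.Agent.V1193.LE.A

set_option autoImplicit false

/-! The last index, for a pair bound that is small against the weight of the first index. -/

namespace Pool.Agent.V1193.BP

open Finset Filter Topology MeasureTheory
open Pool.Agent.V1193.LE (T T_nonneg summable_T T_pos T_tendsto average T_anti Last last_eq last_meas
  mean_eq tail_eq fin)

variable {Ω : Type*} [MeasurableSpace Ω] {μ : Measure Ω} [IsFiniteMeasure μ]

/-- one index and a later one -/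
lemma overlap2 {S : ℕ → Set Ω} {w e β : ℕ → ℝ} {K : ℝ} {N : ℕ} (hw : ∀ p, 0 ≤ w p)
    (he : ∀ k, 0 ≤ e k) (hes : Summable e) (hβ : ∀ p, 0 ≤ β p) (hK : 0 ≤ K)
    (hpair : ∀ p ≥ N, ∀ k, μ.real (S p ∩ S (p + 1 + k)) ≤ K * w p * β p * e k) {p : ℕ}
    (hp : N ≤ p) :
    μ (S p ∩ ⋃ k : ℕ, S (p + 1 + k)) ≤ ENNReal.ofReal (K * w p * β p * ∑' k, e k) := by
  have h0 : 0 ≤ K * w p * β p := mul_nonneg (mul_nonneg hK (hw p)) (hβ p)
  rw [Set.inter_iUnion]
  refine (measure_iUnion_le _).trans ?_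
  rw [← tsum_mul_left, ENNReal.ofReal_tsum_of_nonneg (fun k => mul_nonneg h0 (he _))
    (hes.mul_left _)]
  refine ENNReal.tsum_le_tsum fun k => ?_
  rw [← ENNReal.ofReal_toReal (measure_ne_top μ (S p ∩ S (p + 1 + k)))]
  exact ENNReal.ofReal_le_ofReal (hpair p hp k)

/-- the law of the last index: masses -/
theorem last_law2 {S : ℕ → Set Ω} (hS : ∀ m, MeasurableSet (S m)) {w e β : ℕ → ℝ} {L K : ℝ} {N : ℕ}
    (hw : ∀ p, 0 ≤ w p) (he : ∀ k, 0 ≤ e k) (hes : Summable e) (hβ : ∀ p, 0 ≤ β p)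
    (hβ0 : Tendsto β atTop (𝓝 0)) (hK : 0 ≤ K)
    (hq : ∀ ε > 0, ∀ᶠ p : ℕ in atTop, |μ.real (S p) - L * w p| ≤ ε * w p)
    (hpair : ∀ p ≥ N, ∀ k, μ.real (S p ∩ S (p + 1 + k)) ≤ K * w p * β p * e k) :
    ∀ ε > 0, ∀ᶠ p : ℕ in atTop, |μ.real (Last S p) - L * w p| ≤ ε * w p := by
  intro ε hε
  set E := ∑' k, e k with hE
  have hE0 : 0 ≤ E := tsum_nonneg he
  have h1 : ∀ᶠ p : ℕ in atTop, K * E * β p < ε / 2 := by
    have h2 := hβ0.const_mul (K * E)
    rw [mul_zero] at h2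
    exact h2.eventually_lt_const (by positivity)
  filter_upwards [hq (ε / 2) (by positivity), h1, eventually_ge_atTop N] with p h2 h3 h4
  have hover : μ.real (S p ∩ ⋃ k : ℕ, S (p + 1 + k)) ≤ K * w p * β p * E := by
    rw [Measure.real]
    exact ENNReal.toReal_le_of_le_ofReal
      (mul_nonneg (mul_nonneg (mul_nonneg hK (hw p)) (hβ p)) hE0)
      (overlap2 hw he hes hβ hK hpair h4)
  have e1 : μ.real (Last S p) = μ.real (S p) - μ.real (S p ∩ ⋃ k : ℕ, S (p + 1 + k)) := by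
    rw [last_eq, measureReal_sdiff (Set.inter_subset_left)
      ((hS p).inter (MeasurableSet.iUnion fun k => hS _))]
  have h5 : 0 ≤ μ.real (S p ∩ ⋃ k : ℕ, S (p + 1 + k)) := measureReal_nonneg
  have h6 : K * w p * β p * E ≤ ε / 2 * w p := by
    calc K * w p * β p * E = (K * E * β p) * w p := by ring
      _ ≤ ε / 2 * w p := mul_le_mul_of_nonneg_right h3.le (hw p)
  rw [e1]
  rw [abs_le] at h2 ⊢
  have h7 := hw p
  constructor
  · nlinarith [h2.1]
  · nlinarith [h2.2]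

/-- two indices from `n` on -/
theorem two_le2 {S : ℕ → Set Ω} {w e β : ℕ → ℝ} {K : ℝ} {N : ℕ}
    (hw : ∀ p, 0 ≤ w p) (hs : Summable w) (he : ∀ k, 0 ≤ e k) (hes : Summable e)
    (hβ : ∀ p, 0 ≤ β p) (hβa : Antitone β) (hK : 0 ≤ K)
    (hpair : ∀ p ≥ N, ∀ k, μ.real (S p ∩ S (p + 1 + k)) ≤ K * w p * β p * e k)
    {n : ℕ} (hn : N ≤ n) :
    μ.real {y | ∃ p q, n ≤ p ∧ p < q ∧ y ∈ S p ∧ y ∈ S q} ≤
      (K * ∑' k, e k) * β n * T w n := by
  set E := ∑' k, e k with hE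
  have hE0 : 0 ≤ E := tsum_nonneg he
  have hT := T_nonneg hw n
  have hc : 0 ≤ K * E * β n := mul_nonneg (mul_nonneg hK hE0) (hβ n)
  have hsub : {y | ∃ p q, n ≤ p ∧ p < q ∧ y ∈ S p ∧ y ∈ S q} ⊆
      ⋃ j : ℕ, (S (n + j) ∩ ⋃ k : ℕ, S (n + j + 1 + k)) := by
    rintro y ⟨p, q, h1, h2, h3, h4⟩
    refine Set.mem_iUnion.2 ⟨p - n, ?_, Set.mem_iUnion.2 ⟨q - (p + 1), ?_⟩⟩
    · rwa [show n + (p - n) = p by omega]
    · rwa [show n + (p - n) + 1 + (q - (p + 1)) = q by omega]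
  rw [Measure.real]
  refine ENNReal.toReal_le_of_le_ofReal (mul_nonneg hc hT) ?_
  refine (measure_mono hsub).trans ((measure_iUnion_le _).trans ?_)
  have e1 : K * E * β n * T w n = ∑' j : ℕ, K * E * β n * w (n + j) := by
    rw [tsum_mul_left]
    rfl
  rw [e1, ENNReal.ofReal_tsum_of_nonneg (fun j => mul_nonneg hc (hw _))
    ((summable_T hs n).mul_left _)]
  refine ENNReal.tsum_le_tsum fun j => ?_
  refine (overlap2 hw he hes hβ hK hpair (by omega)).trans (ENNReal.ofReal_le_ofReal ?_)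
  have h5 := hβa (show n ≤ n + j by omega)
  calc K * w (n + j) * β (n + j) * E = (K * w (n + j) * E) * β (n + j) := by ring
    _ ≤ (K * w (n + j) * E) * β n :=
        mul_le_mul_of_nonneg_left h5 (mul_nonneg (mul_nonneg hK (hw _)) hE0)
    _ = _ := by ring

end Pool.Agent.V1193.BP
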