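import Pool.Agent.V1193.BP.A
import Pool.Agent.V1193.BP.B
import Pool.Agent.V1193.LE.B

set_option autoImplicit false

/-! Three parameters: masses and pairs. -/

namespace Pool.Agent.V1193.BP

open Finset Filter Topology MeasureTheory
open Pool.Agent.H305R2 (ff measurable_ff ff_nonneg ff_le_one integrableOn_ff bounds)
open Pool.Agent.V1193.FM (g g_nonneg g_le_one measurable_g integrableOn_g g_bound g_asymp ff_asymp)
open Pool.Agent.Y122.PC (Bx measurable_Bx vol_Bx eg)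

lemma ff01 (p : ℕ) (t : ℝ) : ff p t = 0 ∨ ff p t = 1 := by unfold ff; split_ifs <;> simp

lemma g01 (p : ℕ) (t : ℝ) : g p t = 0 ∨ g p t = 1 := by unfold g; split_ifs <;> simp

/-- the mean over the first amplitude -/
noncomputable def AA (p : ℕ) (y0 y1 x : ℝ) : ℝ := ∫ y in Set.Ioc y0 y1, ff p (p * x + y)

/-- the mean over the second amplitude -/
noncomputable def BB (p : ℕ) (y0 y1 x : ℝ) : ℝ := ∫ y in Set.Ioc y0 y1, g p (p * x + y)

/-- pairs, the first amplitude -/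
noncomputable def A2 (p q : ℕ) (y0 y1 x : ℝ) : ℝ :=
  ∫ y in Set.Ioc y0 y1, ff p (p * x + y) * ff q (q * x + y)

/-- pairs, the second amplitude -/
noncomputable def B2 (p q : ℕ) (y0 y1 x : ℝ) : ℝ :=
  ∫ y in Set.Ioc y0 y1, g p (p * x + y) * g q (q * x + y)

lemma shift_int (f : ℝ → ℝ) {y0 y1 : ℝ} (hy : y0 ≤ y1) (c : ℝ) :
    ∫ y in Set.Ioc y0 y1, f (c + y) = ∫ t in Set.Ioc (c + y0) (c + y1), f t := by
  rw [← intervalIntegral.integral_of_le hy, ← intervalIntegral.integral_of_le (by linarith),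
    intervalIntegral.integral_comp_add_left]

lemma AA_nonneg (p : ℕ) (y0 y1 x : ℝ) : 0 ≤ AA p y0 y1 x := integral_nonneg fun _ => ff_nonneg _ _

lemma BB_nonneg (p : ℕ) (y0 y1 x : ℝ) : 0 ≤ BB p y0 y1 x := integral_nonneg fun _ => g_nonneg _ _

lemma ff_bound {c : ℝ} (hc : 0 < c) : ∃ K : ℝ, 0 < K ∧ ∀ᶠ p : ℕ in atTop,
    ∀ u v, c * p + 1 ≤ u → u ≤ v →
      ∫ t in Set.Ioc u v, ff p t ≤ K * ((v - u) + 1 / p) * (Real.log p / p) := by
  obtain ⟨K, hK, hev⟩ := bounds hc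
  refine ⟨K, hK, ?_⟩
  filter_upwards [hev] with p hp u v hu huv
  exact hp.2.1 u v hu huv

lemma start {x0 : ℝ} (hx0 : 0 < x0) (y0 : ℝ) : ∀ᶠ p : ℕ in atTop, ∀ x : ℝ, x0 ≤ x →
    x0 / 2 * p + 2 ≤ p * x + y0 := by
  have h : ∀ᶠ p : ℕ in atTop, (2 - y0) / (x0 / 2) < p :=
    tendsto_natCast_atTop_atTop.eventually_gt_atTop _
  filter_upwards [h] with p hp x hx
  rw [div_lt_iff₀ (by positivity)] at hp
  have h4 : (p : ℝ) * x0 ≤ p * x := mul_le_mul_of_nonneg_left hx (Nat.cast_nonneg _)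
  linarith

lemma win_bound {f : ℕ → ℝ → ℝ} (hf : ∀ {c : ℝ}, 0 < c → ∃ K : ℝ, 0 < K ∧ ∀ᶠ p : ℕ in atTop,
    ∀ u v, c * p + 1 ≤ u → u ≤ v →
      ∫ t in Set.Ioc u v, f p t ≤ K * ((v - u) + 1 / p) * (Real.log p / p))
    {x0 y0 y1 : ℝ} (hx0 : 0 < x0) (hy : y0 ≤ y1) : ∃ K : ℝ, 0 < K ∧ ∀ᶠ p : ℕ in atTop,
    ∀ x : ℝ, x0 ≤ x → ∫ y in Set.Ioc y0 y1, f p (p * x + y) ≤ K * (Real.log p / p) := by
  obtain ⟨K, hK, hev⟩ := hf (c := x0 / 2) (by positivity)
  refine ⟨K * ((y1 - y0) + 1), mul_pos hK (by linarith), ?_⟩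
  filter_upwards [hev, start hx0 y0, eventually_ge_atTop 3] with p hp hs hp3 x hx
  have hp3' : (3 : ℝ) ≤ p := by exact_mod_cast hp3
  have hp0 : (0 : ℝ) < p := by linarith
  have hl : 0 ≤ Real.log p / p := div_nonneg (Real.log_nonneg (by linarith)) hp0.le
  rw [shift_int (f p) hy]
  refine (hp _ _ (by linarith [hs x hx]) (by linarith)).trans ?_
  refine mul_le_mul_of_nonneg_right (mul_le_mul_of_nonneg_left ?_ hK.le) hl
  have h1p : 1 / (p : ℝ) ≤ 1 := by rw [div_le_one hp0]; linarith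
  linarith

lemma AA_bound {x0 y0 y1 : ℝ} (hx0 : 0 < x0) (hy : y0 ≤ y1) : ∃ K : ℝ, 0 < K ∧
    ∀ᶠ p : ℕ in atTop, ∀ x : ℝ, x0 ≤ x → AA p y0 y1 x ≤ K * (Real.log p / p) :=
  win_bound (f := ff) ff_bound hx0 hy

lemma BB_bound {x0 y0 y1 : ℝ} (hx0 : 0 < x0) (hy : y0 ≤ y1) : ∃ K : ℝ, 0 < K ∧
    ∀ᶠ p : ℕ in atTop, ∀ x : ℝ, x0 ≤ x → BB p y0 y1 x ≤ K * (Real.log p / p) :=
  win_bound (f := g) g_bound hx0 hy

lemma slope {x : ℝ} (y0 : ℝ) :
    Tendsto (fun p : ℕ => (p * x + y0) / (p : ℝ)) atTop (𝓝 x) := by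
  have h2 : Tendsto (fun p : ℕ => x + y0 / (p : ℝ)) atTop (𝓝 (x + 0)) :=
    tendsto_const_nhds.add (tendsto_const_nhds.div_atTop tendsto_natCast_atTop_atTop)
  rw [add_zero] at h2
  refine h2.congr' ?_
  filter_upwards [eventually_gt_atTop 0] with p hp
  have hp0' : (0 : ℝ) < p := by exact_mod_cast hp
  field_simp

lemma AA_lim {x y0 y1 : ℝ} (hx : 0 < x) (hy : y0 < y1) :
    Tendsto (fun p : ℕ => AA p y0 y1 x * (p / Real.log p)) atTop (𝓝 (eg * (y1 - y0) / x)) := by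
  refine (ff_asymp hx (sub_pos.2 hy) (slope y0)).congr fun p => ?_
  unfold AA
  rw [shift_int (ff p) hy.le, show (p : ℝ) * x + y0 + (y1 - y0) = p * x + y1 by ring]

lemma BB_lim {x y0 y1 : ℝ} (hx : 0 < x) (hy : y0 < y1) :
    Tendsto (fun p : ℕ => BB p y0 y1 x * (p / Real.log p)) atTop (𝓝 (eg * (y1 - y0) / x)) := by
  refine (g_asymp hx (sub_pos.2 hy) (slope y0)).congr fun p => ?_
  unfold BB
  rw [shift_int (g p) hy.le, show (p : ℝ) * x + y0 + (y1 - y0) = p * x + y1 by ring]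

lemma measurable_win {f : ℝ → ℝ} (hf : Measurable f) (c y0 y1 : ℝ) :
    Measurable fun x : ℝ => ∫ y in Set.Ioc y0 y1, f (c * x + y) := by
  have h : StronglyMeasurable (fun r : ℝ × ℝ => f (c * r.1 + r.2)) :=
    (hf.comp (by fun_prop)).stronglyMeasurable
  exact (h.integral_prod_right' (ν := volume.restrict (Set.Ioc y0 y1))).measurable

lemma measurable_AA (p : ℕ) (y0 y1 : ℝ) : Measurable (AA p y0 y1) :=
  measurable_win (measurable_ff p) _ _ _

lemma measurable_BB (p : ℕ) (y0 y1 : ℝ) : Measurable (BB p y0 y1) :=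
  measurable_win (measurable_g p) _ _ _

/-- the constant -/
noncomputable def T3 (x0 x1 y0 y1 u0 u1 : ℝ) : ℝ :=
  eg ^ 2 * (1 / x0 - 1 / x1) * (y1 - y0) * (u1 - u0)

lemma int_sq {x0 x1 : ℝ} (hx0 : 0 < x0) (hx : x0 ≤ x1) (a b : ℝ) :
    ∫ x in Set.Ioc x0 x1, (eg * a / x) * (eg * b / x) = eg ^ 2 * (1 / x0 - 1 / x1) * a * b := by
  rw [← intervalIntegral.integral_of_le hx]
  have h4 : ∫ x in x0..x1, (eg * a / x) * (eg * b / x) =
      ∫ x in x0..x1, (eg ^ 2 * a * b) * x ^ (-2 : ℤ) := by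
    refine intervalIntegral.integral_congr fun x _ => ?_
    have e : x ^ (-2 : ℤ) = (x * x)⁻¹ := by
      rw [zpow_neg, show ((2 : ℤ)) = ((2 : ℕ) : ℤ) from rfl, zpow_natCast, pow_two]
    rw [e, div_mul_div_comm, div_eq_mul_inv]
    ring
  rw [h4, intervalIntegral.integral_const_mul, integral_zpow]
  · have e1 : ((-2 : ℤ) + 1) = -1 := by norm_num
    have e2 : (((-2 : ℤ) : ℝ) + 1) = -1 := by norm_num
    rw [e1, e2, zpow_neg_one, zpow_neg_one]
    ring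
  · right
    refine ⟨by norm_num, ?_⟩
    rw [Set.uIcc_of_le hx]
    intro h5
    exact absurd h5.1 (not_le.2 hx0)

/-- the masses -/
theorem mass_lim {x0 x1 y0 y1 u0 u1 : ℝ} (hx0 : 0 < x0) (hx : x0 < x1) (hy : y0 < y1)
    (hu : u0 < u1) :
    Tendsto (fun p : ℕ => (∫ x in Set.Ioc x0 x1, AA p y0 y1 x * BB p u0 u1 x) *
      (p / Real.log p) ^ 2) atTop (𝓝 (T3 x0 x1 y0 y1 u0 u1)) := by
  obtain ⟨K1, hK1, h1⟩ := AA_bound hx0 hy.le
  obtain ⟨K2, hK2, h2⟩ := BB_bound hx0 hu.le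
  have key : Tendsto (fun p : ℕ => ∫ x in Set.Ioc x0 x1, (AA p y0 y1 x * (p / Real.log p)) *
      (BB p u0 u1 x * (p / Real.log p))) atTop
      (𝓝 (∫ x in Set.Ioc x0 x1, (eg * (y1 - y0) / x) * (eg * (u1 - u0) / x))) := by
    refine tendsto_integral_filter_of_dominated_convergence (fun _ => K1 * K2) ?_ ?_ ?_ ?_
    · refine Eventually.of_forall fun p => Measurable.aestronglyMeasurable ?_
      exact ((measurable_AA p y0 y1).mul_const _).mul ((measurable_BB p u0 u1).mul_const _)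
    · filter_upwards [h1, h2, eventually_ge_atTop 3] with p a1 a2 hp3
      have hp3' : (3 : ℝ) ≤ p := by exact_mod_cast hp3
      have hl : 0 < Real.log p := Real.log_pos (by linarith)
      have hr : 0 ≤ (p : ℝ) / Real.log p := by positivity
      filter_upwards [ae_restrict_mem measurableSet_Ioc] with x hxx
      have b1 : AA p y0 y1 x * (p / Real.log p) ≤ K1 := by
        calc _ ≤ K1 * (Real.log p / p) * (p / Real.log p) :=
              mul_le_mul_of_nonneg_right (a1 x hxx.1.le) hr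
          _ = _ := by field_simp
      have b2 : BB p u0 u1 x * (p / Real.log p) ≤ K2 := by
        calc _ ≤ K2 * (Real.log p / p) * (p / Real.log p) :=
              mul_le_mul_of_nonneg_right (a2 x hxx.1.le) hr
          _ = _ := by field_simp
      have c1 := mul_nonneg (AA_nonneg p y0 y1 x) hr
      have c2 := mul_nonneg (BB_nonneg p u0 u1 x) hr
      rw [Real.norm_of_nonneg (mul_nonneg c1 c2)]
      exact mul_le_mul b1 b2 c2 hK1.le
    · exact integrable_const _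
    · filter_upwards [ae_restrict_mem measurableSet_Ioc] with x hxx
      have hx' : 0 < x := hx0.trans hxx.1
      exact (AA_lim hx' hy).mul (BB_lim hx' hu)
  rw [int_sq hx0 hx.le] at key
  refine key.congr fun p => ?_
  rw [← integral_mul_const]
  refine integral_congr_ae (Eventually.of_forall fun x => ?_)
  simp only
  ring

/-- the box -/
def B3 (x0 x1 y0 y1 u0 u1 : ℝ) : Set (ℝ × ℝ × ℝ) :=
  Set.Ioc x0 x1 ×ˢ (Set.Ioc y0 y1 ×ˢ Set.Ioc u0 u1)

lemma measurable_B3 (x0 x1 y0 y1 u0 u1 : ℝ) : MeasurableSet (B3 x0 x1 y0 y1 u0 u1) :=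
  measurableSet_Ioc.prod (measurableSet_Ioc.prod measurableSet_Ioc)

lemma vol_B3 (x0 x1 y0 y1 u0 u1 : ℝ) : volume (B3 x0 x1 y0 y1 u0 u1) ≠ ⊤ := by
  unfold B3
  rw [Measure.volume_eq_prod, Measure.prod_prod, Measure.volume_eq_prod, Measure.prod_prod]
  exact (ENNReal.mul_lt_top (by simp) (ENNReal.mul_lt_top (by simp) (by simp))).ne

instance (x0 x1 y0 y1 u0 u1 : ℝ) :
    IsFiniteMeasure ((volume : Measure (ℝ × ℝ × ℝ)).restrict (B3 x0 x1 y0 y1 u0 u1)) :=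
  ⟨by rw [Measure.restrict_apply_univ]; exact lt_top_iff_ne_top.2 (vol_B3 _ _ _ _ _ _)⟩

/-- Fubini -/
lemma fubini3 {a b : ℝ × ℝ → ℝ} (ha : Measurable a) (hb : Measurable b) (ha0 : ∀ z, 0 ≤ a z)
    (hb0 : ∀ z, 0 ≤ b z) (ha1 : ∀ z, a z ≤ 1) (hb1 : ∀ z, b z ≤ 1) (x0 x1 y0 y1 u0 u1 : ℝ) :
    ∫ z in B3 x0 x1 y0 y1 u0 u1, a (z.1, z.2.1) * b (z.1, z.2.2) =
      ∫ x in Set.Ioc x0 x1, (∫ y in Set.Ioc y0 y1, a (x, y)) * ∫ u in Set.Ioc u0 u1, b (x, u) := by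
  have hint : IntegrableOn (fun z : ℝ × ℝ × ℝ => a (z.1, z.2.1) * b (z.1, z.2.2))
      (Set.Ioc x0 x1 ×ˢ (Set.Ioc y0 y1 ×ˢ Set.Ioc u0 u1)) volume := by
    refine Measure.integrableOn_of_bounded (M := 1) (vol_B3 _ _ _ _ _ _)
      ((ha.comp (by fun_prop)).mul (hb.comp (by fun_prop))).aestronglyMeasurable ?_
    refine Eventually.of_forall fun z => ?_
    rw [Real.norm_of_nonneg (mul_nonneg (ha0 _) (hb0 _))]
    exact mul_le_one₀ (ha1 _) (hb0 _) (hb1 _)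
  unfold B3
  rw [Measure.volume_eq_prod] at hint ⊢
  rw [setIntegral_prod _ hint]
  refine setIntegral_congr_fun measurableSet_Ioc fun x _ => ?_
  simp only
  rw [Measure.volume_eq_prod]
  exact setIntegral_prod_mul (fun y => a (x, y)) (fun u => b (x, u)) _ _

lemma real_gen {a b : ℝ × ℝ → ℝ} (ha : Measurable a) (hb : Measurable b)
    (ha01 : ∀ z, a z = 0 ∨ a z = 1) (hb01 : ∀ z, b z = 0 ∨ b z = 1) (x0 x1 y0 y1 u0 u1 : ℝ) :
    (volume.restrict (B3 x0 x1 y0 y1 u0 u1)).real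
      {z : ℝ × ℝ × ℝ | a (z.1, z.2.1) = 1 ∧ b (z.1, z.2.2) = 1} =
      ∫ x in Set.Ioc x0 x1, (∫ y in Set.Ioc y0 y1, a (x, y)) * ∫ u in Set.Ioc u0 u1, b (x, u) := by
  have hm : MeasurableSet {z : ℝ × ℝ × ℝ | a (z.1, z.2.1) = 1 ∧ b (z.1, z.2.2) = 1} := by
    have h1 : Measurable fun z : ℝ × ℝ × ℝ => a (z.1, z.2.1) := ha.comp (by fun_prop)
    have h2 : Measurable fun z : ℝ × ℝ × ℝ => b (z.1, z.2.2) := hb.comp (by fun_prop)
    exact (h1 (measurableSet_singleton 1)).inter (h2 (measurableSet_singleton 1))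
  rw [← fubini3 ha hb (fun z => by rcases ha01 z with h | h <;> rw [h]; norm_num)
    (fun z => by rcases hb01 z with h | h <;> rw [h]; norm_num)
    (fun z => by rcases ha01 z with h | h <;> rw [h]; norm_num)
    (fun z => by rcases hb01 z with h | h <;> rw [h]; norm_num)]
  have e : (fun z : ℝ × ℝ × ℝ => a (z.1, z.2.1) * b (z.1, z.2.2)) =
      ({z : ℝ × ℝ × ℝ | a (z.1, z.2.1) = 1 ∧ b (z.1, z.2.2) = 1}).indicator
        (fun _ => (1 : ℝ)) := by
    funext z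
    by_cases hz : z ∈ {z : ℝ × ℝ × ℝ | a (z.1, z.2.1) = 1 ∧ b (z.1, z.2.2) = 1}
    · rw [Set.indicator_of_mem hz, hz.1, hz.2, one_mul]
    · rw [Set.indicator_of_notMem hz]
      rcases ha01 (z.1, z.2.1) with h | h
      · rw [h, zero_mul]
      · rcases hb01 (z.1, z.2.2) with h' | h'
        · rw [h', mul_zero]
        · exact absurd ⟨h, h'⟩ hz
  rw [e, integral_indicator_const _ hm, smul_eq_mul, mul_one]

/-- the events -/
def EE (S : Set ℕ) (p : ℕ) : Set (ℝ × ℝ × ℝ) :=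
  {z | p ∈ S ∧ ff p (p * z.1 + z.2.1) = 1 ∧ g p (p * z.1 + z.2.2) = 1}

lemma meas_EE (S : Set ℕ) (p : ℕ) : MeasurableSet (EE S p) := by
  have h1 : Measurable fun z : ℝ × ℝ × ℝ => ff p (p * z.1 + z.2.1) :=
    (measurable_ff p).comp (by fun_prop)
  have h2 : Measurable fun z : ℝ × ℝ × ℝ => g p (p * z.1 + z.2.2) :=
    (measurable_g p).comp (by fun_prop)
  by_cases hp : p ∈ S
  · have : EE S p = {z : ℝ × ℝ × ℝ | ff p (p * z.1 + z.2.1) = 1 ∧ g p (p * z.1 + z.2.2) = 1} := by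
      ext z; exact ⟨fun h => h.2, fun h => ⟨hp, h⟩⟩
    rw [this]
    exact (h1 (measurableSet_singleton 1)).inter (h2 (measurableSet_singleton 1))
  · have : EE S p = ∅ := by
      ext z
      simp only [Set.mem_empty_iff_false, iff_false]
      exact fun h => hp h.1
    rw [this]; exact MeasurableSet.empty

lemma real_E {S : Set ℕ} {p : ℕ} (hp : p ∈ S) (x0 x1 y0 y1 u0 u1 : ℝ) :
    (volume.restrict (B3 x0 x1 y0 y1 u0 u1)).real (EE S p) =
      ∫ x in Set.Ioc x0 x1, AA p y0 y1 x * BB p u0 u1 x := by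
  have h := real_gen (a := fun r : ℝ × ℝ => ff p (p * r.1 + r.2))
    (b := fun r : ℝ × ℝ => g p (p * r.1 + r.2)) ((measurable_ff p).comp (by fun_prop))
    ((measurable_g p).comp (by fun_prop)) (fun z => ff01 _ _) (fun z => g01 _ _) x0 x1 y0 y1 u0 u1
  rw [← show _ = ∫ x in Set.Ioc x0 x1, AA p y0 y1 x * BB p u0 u1 x from h]
  congr 1
  ext z
  exact ⟨fun h => h.2, fun h => ⟨hp, h⟩⟩

lemma mul_eq_one01 {s t : ℝ} (hs : s = 0 ∨ s = 1) (ht : t = 0 ∨ t = 1) :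
    s * t = 1 ↔ s = 1 ∧ t = 1 := by
  rcases hs with rfl | rfl <;> rcases ht with rfl | rfl <;> simp

lemma mul01 {s t : ℝ} (hs : s = 0 ∨ s = 1) (ht : t = 0 ∨ t = 1) : s * t = 0 ∨ s * t = 1 := by
  rcases hs with rfl | rfl <;> rcases ht with rfl | rfl <;> simp

lemma real_EE {S : Set ℕ} {p q : ℕ} (hp : p ∈ S) (hq : q ∈ S) (x0 x1 y0 y1 u0 u1 : ℝ) :
    (volume.restrict (B3 x0 x1 y0 y1 u0 u1)).real (EE S p ∩ EE S q) =
      ∫ x in Set.Ioc x0 x1, A2 p q y0 y1 x * B2 p q u0 u1 x := by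
  have h := real_gen (a := fun r : ℝ × ℝ => ff p (p * r.1 + r.2) * ff q (q * r.1 + r.2))
    (b := fun r : ℝ × ℝ => g p (p * r.1 + r.2) * g q (q * r.1 + r.2))
    (((measurable_ff p).comp (by fun_prop)).mul ((measurable_ff q).comp (by fun_prop)))
    (((measurable_g p).comp (by fun_prop)).mul ((measurable_g q).comp (by fun_prop)))
    (fun z => mul01 (ff01 _ _) (ff01 _ _)) (fun z => mul01 (g01 _ _) (g01 _ _)) x0 x1 y0 y1 u0 u1
  rw [← show _ = ∫ x in Set.Ioc x0 x1, A2 p q y0 y1 x * B2 p q u0 u1 x from h]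
  congr 1
  ext z
  simp only [Set.mem_inter_iff, EE, Set.mem_ofPred_eq, mul_eq_one01 (ff01 _ _) (ff01 _ _),
    mul_eq_one01 (g01 _ _) (g01 _ _)]
  tauto

/-- the weights -/
noncomputable def w2 (S : Set ℕ) : ℕ → ℝ := S.indicator fun p : ℕ => (Real.log p / p) ^ 2

lemma w2_nonneg (S : Set ℕ) (p : ℕ) : 0 ≤ w2 S p := Set.indicator_nonneg (fun _ _ => sq_nonneg _) p

/-- the first moment -/
theorem one_law {x0 x1 y0 y1 u0 u1 : ℝ} (hx0 : 0 < x0) (hx : x0 < x1) (hy : y0 < y1)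
    (hu : u0 < u1) (S : Set ℕ) : ∀ ε > 0, ∀ᶠ p : ℕ in atTop,
    |(volume.restrict (B3 x0 x1 y0 y1 u0 u1)).real (EE S p) - T3 x0 x1 y0 y1 u0 u1 * w2 S p| ≤
      ε * w2 S p := by
  intro ε hε
  have h2 := (Metric.tendsto_nhds.1 (mass_lim hx0 hx hy hu)) ε hε
  filter_upwards [h2, eventually_ge_atTop 3] with p hp hp3
  by_cases hS : p ∈ S
  · have hw : w2 S p = (Real.log p / p) ^ 2 := Set.indicator_of_mem hS _
    have hp3' : (3 : ℝ) ≤ p := by exact_mod_cast hp3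
    have hp0 : (0 : ℝ) < p := by linarith
    have hl : 0 < Real.log p := Real.log_pos (by linarith)
    have hw0 : 0 < (Real.log p / p) ^ 2 := by positivity
    rw [real_E hS, hw]
    rw [Real.dist_eq] at hp
    set J := ∫ x in Set.Ioc x0 x1, AA p y0 y1 x * BB p u0 u1 x
    set L := T3 x0 x1 y0 y1 u0 u1
    have e2 : J - L * (Real.log p / p) ^ 2 =
        (J * (p / Real.log p) ^ 2 - L) * (Real.log p / p) ^ 2 := by
      field_simp
    rw [e2, abs_mul, abs_of_pos hw0]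
    exact mul_le_mul_of_nonneg_right hp.le hw0.le
  · have e : EE S p = ∅ := by
      ext z
      simp only [Set.mem_empty_iff_false, iff_false]
      exact fun h => hS h.1
    have hw : w2 S p = 0 := Set.indicator_of_notMem hS _
    rw [e, hw]
    simp

end Pool.Agent.V1193.BP
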