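import Pool.Agent.V1193.BP.C

set_option autoImplicit false

/-! Three parameters: pairs. -/

namespace Pool.Agent.V1193.BP

open Finset Filter Topology MeasureTheory
open Pool.Agent.H305R2 (ff measurable_ff ff_nonneg ff_le_one integrableOn_ff)
open Pool.Agent.V1193.FM (g g_nonneg g_le_one measurable_g integrableOn_g)
open Pool.Agent.Y122.PC (Bx measurable_Bx vol_Bx eg I F)

/-- the saving for pairs -/
noncomputable def mm (p q : ℕ) : ℝ := if √(q : ℝ) ≤ (q : ℝ) - p then Real.log q / √(q : ℝ) else 1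

lemma mm_nonneg (p q : ℕ) : 0 ≤ mm p q := by
  unfold mm
  split_ifs
  · exact div_nonneg (Real.log_natCast_nonneg q) (Real.sqrt_nonneg _)
  · exact zero_le_one

/-- pairs for one base -/
theorem B2_bound {x0 u0 u1 : ℝ} (hx0 : 0 < x0) (hu : u0 ≤ u1) : ∃ K : ℝ, 0 < K ∧
    ∀ᶠ p : ℕ in atTop, ∀ q : ℕ, p < q → ∀ x : ℝ, x0 ≤ x →
      B2 p q u0 u1 x ≤ K * (Real.log p / p) * mm p q := by
  obtain ⟨K1, hK1, h1⟩ := pairg2 (c := x0 / 2) (by positivity)
  obtain ⟨K2, hK2, h2⟩ := BB_bound hx0 hu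
  have hl : 0 ≤ u1 - u0 := sub_nonneg.2 hu
  refine ⟨K1 * ((u1 - u0) + 3) + K2, by positivity, ?_⟩
  filter_upwards [h1, h2, start hx0 u0, eventually_ge_atTop 3] with p a1 a2 hs hp3 q hpq x hx
  have hp3' : (3 : ℝ) ≤ p := by exact_mod_cast hp3
  have hlp : 0 ≤ Real.log p / p := div_nonneg (Real.log_nonneg (by linarith)) (by linarith)
  have hm := mm_nonneg p q
  unfold mm at hm ⊢
  split_ifs with hc
  · have hlq : 0 ≤ Real.log q / √(q : ℝ) :=
      div_nonneg (Real.log_natCast_nonneg q) (Real.sqrt_nonneg _)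
    have hC : x0 / 2 * √(q : ℝ) ≤ ((q : ℝ) - p) * x := by
      have h3 : √(q : ℝ) * x0 ≤ ((q : ℝ) - p) * x :=
        mul_le_mul hc hx hx0.le ((Real.sqrt_nonneg _).trans hc)
      have h4 : 0 ≤ √(q : ℝ) * x0 := mul_nonneg (Real.sqrt_nonneg _) hx0.le
      linarith
    have h5 := a1 q hpq (((q : ℝ) - p) * x) hC (p * x + u0) (p * x + u1) (hs x hx) (by linarith)
    have e : B2 p q u0 u1 x = ∫ t in Set.Ioc (p * x + u0) (p * x + u1),
        g p t * g q (t + ((q : ℝ) - p) * x) := by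
      rw [← shift_int (fun t => g p t * g q (t + ((q : ℝ) - p) * x)) hu]
      unfold B2
      refine integral_congr_ae (Eventually.of_forall fun u => ?_)
      simp only
      congr 2
      ring
    rw [e]
    refine h5.trans ?_
    have h6 : 0 ≤ K2 * (Real.log p / p) * (Real.log q / √(q : ℝ)) := by positivity
    have e2 : p * x + u1 - (p * x + u0) = u1 - u0 := by ring
    rw [e2]
    nlinarith
  · have h5 : B2 p q u0 u1 x ≤ BB p u0 u1 x := by
      unfold B2 BB
      refine integral_mono_of_nonneg (Eventually.of_forall fun u =>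
        mul_nonneg (g_nonneg _ _) (g_nonneg _ _)) ?_ (Eventually.of_forall fun u => ?_)
      · refine Measure.integrableOn_of_bounded (M := 1) (by simp)
          ((measurable_g p).comp (by fun_prop)).aestronglyMeasurable ?_
        refine Eventually.of_forall fun t => ?_
        rw [Real.norm_of_nonneg (g_nonneg p _)]
        exact g_le_one p _
      · exact mul_le_of_le_one_right (g_nonneg _ _) (g_le_one _ _)
    have h6 : 0 ≤ K1 * ((u1 - u0) + 3) * (Real.log p / p) := by positivity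
    rw [mul_one]
    have := a2 x hx
    nlinarith

lemma int_A2 (p q : ℕ) (x0 x1 y0 y1 : ℝ) :
    ∫ x in Set.Ioc x0 x1, A2 p q y0 y1 x = I x0 x1 y0 y1 p q := by
  have hint : IntegrableOn (F p q) (Set.Ioc x0 x1 ×ˢ Set.Ioc y0 y1) volume := by
    refine Measure.integrableOn_of_bounded (M := 1) (vol_Bx _ _ _ _)
      (Pool.Agent.Y122.PC.measurable_F p q).aestronglyMeasurable ?_
    refine Eventually.of_forall fun z => ?_
    rw [Real.norm_of_nonneg (Pool.Agent.Y122.PC.F_nonneg p q z)]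
    exact Pool.Agent.Y122.PC.F_le_one p q z
  unfold I Bx
  rw [Measure.volume_eq_prod] at hint ⊢
  rw [setIntegral_prod _ hint]
  rfl

lemma A2_nonneg (p q : ℕ) (y0 y1 x : ℝ) : 0 ≤ A2 p q y0 y1 x :=
  integral_nonneg fun _ => mul_nonneg (ff_nonneg _ _) (ff_nonneg _ _)

lemma B2_nonneg (p q : ℕ) (y0 y1 x : ℝ) : 0 ≤ B2 p q y0 y1 x :=
  integral_nonneg fun _ => mul_nonneg (g_nonneg _ _) (g_nonneg _ _)

lemma A2_int (p q : ℕ) (x0 x1 y0 y1 : ℝ) (hy : y0 ≤ y1) :
    IntegrableOn (A2 p q y0 y1) (Set.Ioc x0 x1) := by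
  have hm : Measurable (A2 p q y0 y1) := by
    have h : StronglyMeasurable (fun r : ℝ × ℝ => ff p (p * r.1 + r.2) * ff q (q * r.1 + r.2)) :=
      (((measurable_ff p).comp (by fun_prop)).mul
        ((measurable_ff q).comp (by fun_prop))).stronglyMeasurable
    exact (h.integral_prod_right' (ν := volume.restrict (Set.Ioc y0 y1))).measurable
  refine Measure.integrableOn_of_bounded (M := y1 - y0) (by simp) hm.aestronglyMeasurable ?_
  refine Eventually.of_forall fun x => ?_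
  rw [Real.norm_of_nonneg (A2_nonneg p q y0 y1 x)]
  have h1 : A2 p q y0 y1 x ≤ ∫ _y in Set.Ioc y0 y1, (1 : ℝ) := by
    unfold A2
    refine integral_mono_of_nonneg (Eventually.of_forall fun u =>
      mul_nonneg (ff_nonneg _ _) (ff_nonneg _ _)) (integrable_const _)
      (Eventually.of_forall fun u => ?_)
    exact mul_le_one₀ (ff_le_one _ _) (ff_nonneg _ _) (ff_le_one _ _)
  refine h1.trans (le_of_eq ?_)
  simp [Measure.real, hy]

/-- pairs in the mean over the base -/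
theorem pair_mean {x0 x1 y0 y1 u0 u1 : ℝ} (hx0 : 0 < x0) (hx : x0 < x1) (hy : y0 < y1)
    (hu : u0 < u1) (S : Set ℕ) : ∃ K : ℝ, 0 ≤ K ∧ ∃ N : ℕ, ∀ p ≥ N, ∀ q > p,
    (volume.restrict (B3 x0 x1 y0 y1 u0 u1)).real (EE S p ∩ EE S q) ≤
      K * w2 S p * ((Real.log q / q) * mm p q) := by
  obtain ⟨K1, hK1, h1⟩ := B2_bound hx0 hu.le
  obtain ⟨K2, hK2, N2, h2⟩ := Pool.Agent.V1193.LE.pair_law hx0 hx hy Set.univ
  obtain ⟨N1, hN1⟩ := eventually_atTop.1 h1
  refine ⟨K1 * K2, by positivity, max (max N1 N2) 3, fun p hp q hq => ?_⟩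
  have hpN1 : N1 ≤ p := le_trans ((le_max_left _ _).trans (le_max_left _ _)) hp
  have hpN2 : N2 ≤ p := le_trans ((le_max_right _ _).trans (le_max_left _ _)) hp
  have hp3 : 3 ≤ p := le_trans (le_max_right _ _) hp
  have hp3' : (3 : ℝ) ≤ p := by exact_mod_cast hp3
  have hlp : 0 ≤ Real.log p / p := div_nonneg (Real.log_nonneg (by linarith)) (by linarith)
  have hlq : 0 ≤ Real.log q / q := div_nonneg (Real.log_natCast_nonneg q) (Nat.cast_nonneg q)
  have hm := mm_nonneg p q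
  by_cases hS : p ∈ S ∧ q ∈ S
  · obtain ⟨s1, s2⟩ := hS
    have w1 : w2 S p = (Real.log p / p) ^ 2 := Set.indicator_of_mem s1 _
    rw [real_EE s1 s2, w1]
    have hB : ∀ x ∈ Set.Ioc x0 x1, A2 p q y0 y1 x * B2 p q u0 u1 x ≤
        A2 p q y0 y1 x * (K1 * (Real.log p / p) * mm p q) := fun x hxx =>
      mul_le_mul_of_nonneg_left (hN1 p hpN1 q hq x hxx.1.le) (A2_nonneg _ _ _ _ _)
    have hAi := A2_int p q x0 x1 y0 y1 hy.le
    have h3 : ∫ x in Set.Ioc x0 x1, A2 p q y0 y1 x * B2 p q u0 u1 x ≤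
        ∫ x in Set.Ioc x0 x1, A2 p q y0 y1 x * (K1 * (Real.log p / p) * mm p q) := by
      refine integral_mono_of_nonneg (Eventually.of_forall fun x =>
        mul_nonneg (A2_nonneg _ _ _ _ _) (B2_nonneg _ _ _ _ _)) (hAi.mul_const _) ?_
      filter_upwards [ae_restrict_mem measurableSet_Ioc] with x hxx
      exact hB x hxx
    rw [integral_mul_const, int_A2] at h3
    have h4 := h2 p hpN2 q hq
    have ev : ∀ n : ℕ, Pool.Agent.V1193.LE.Ev Set.univ n =
        {z : ℝ × ℝ | (Pool.Agent.Y122.PC.W z.1 z.2 n).Prime} := by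
      intro n
      ext z
      exact ⟨fun h => h.2, fun h => ⟨Set.mem_univ _, h⟩⟩
    have ew : ∀ n : ℕ, Pool.Agent.V1193.LE.wt Set.univ n = Real.log n / n := fun n =>
      Set.indicator_of_mem (Set.mem_univ _) _
    rw [ev, ev, Pool.Agent.V1193.LE.real_WW, ew, ew] at h4
    have h5 : 0 ≤ K1 * (Real.log p / p) * mm p q := by positivity
    calc _ ≤ _ := h3
      _ ≤ (K2 * (Real.log p / p) * (Real.log q / q)) * (K1 * (Real.log p / p) * mm p q) :=
          mul_le_mul_of_nonneg_right h4 h5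
      _ = _ := by ring
  · have e : EE S p ∩ EE S q = ∅ := by
      ext z
      simp only [Set.mem_empty_iff_false, iff_false]
      exact fun h => hS ⟨h.1.1, h.2.1⟩
    rw [e]
    simp only [measureReal_empty]
    exact mul_nonneg (mul_nonneg (by positivity) (w2_nonneg _ _)) (by positivity)

/-- the decay in the first index -/
noncomputable def be (p : ℕ) : ℝ := ((max p 1 : ℕ) : ℝ) ^ (-(1 / 4 : ℝ))

/-- the decay in the gap -/
noncomputable def ek (k : ℕ) : ℝ := ((k + 1 : ℕ) : ℝ) ^ (-(9 / 8 : ℝ))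

lemma be_nonneg (p : ℕ) : 0 ≤ be p := Real.rpow_nonneg (Nat.cast_nonneg _) _

lemma ek_nonneg (p : ℕ) : 0 ≤ ek p := Real.rpow_nonneg (Nat.cast_nonneg _) _

lemma be_anti : Antitone be := by
  intro a b hab
  unfold be
  refine Real.rpow_le_rpow_of_nonpos ?_ ?_ (by norm_num)
  · exact_mod_cast (by omega : 0 < max a 1)
  · exact_mod_cast (by omega : max a 1 ≤ max b 1)

lemma be_lim : Tendsto be atTop (𝓝 0) := by
  have h := (tendsto_rpow_neg_atTop (show (0 : ℝ) < 1 / 4 by norm_num)).comp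
    (tendsto_natCast_atTop_atTop (R := ℝ))
  refine h.congr' ?_
  filter_upwards [eventually_ge_atTop 1] with p hp
  simp only [Function.comp]
  unfold be
  rw [max_eq_left hp]

lemma summable_ek : Summable ek := by
  have h : Summable fun n : ℕ => (n : ℝ) ^ (-(9 / 8 : ℝ)) := Real.summable_nat_rpow.2 (by norm_num)
  exact (summable_nat_add_iff 1).2 h

/-- the numerical inequality -/
lemma numeric : ∀ᶠ p : ℕ in atTop, ∀ k : ℕ,
    (Real.log ((p + 1 + k : ℕ) : ℝ) / ((p + 1 + k : ℕ) : ℝ)) * mm p (p + 1 + k) ≤ be p * ek k := by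
  have h := (isLittleO_log_rpow_atTop (show (0 : ℝ) < 1 / 16 by norm_num)).bound one_pos
  have h' := (tendsto_natCast_atTop_atTop (R := ℝ)).eventually h
  obtain ⟨N, hN⟩ := eventually_atTop.1 h'
  filter_upwards [eventually_ge_atTop (max N 3)] with p hp k
  have hpN : N ≤ p := (le_max_left _ _).trans hp
  have hp3 : 3 ≤ p := (le_max_right _ _).trans hp
  set q := p + 1 + k with hq
  have hq3 : (3 : ℝ) ≤ q := by exact_mod_cast (by omega : 3 ≤ q)
  have hq0 : (0 : ℝ) < q := by linarith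
  have hp0 : (0 : ℝ) < p := by exact_mod_cast (by omega : 0 < p)
  have hj : ((k + 1 : ℕ) : ℝ) = (q : ℝ) - p := by rw [hq]; push_cast; ring
  have hj0 : (0 : ℝ) < ((k + 1 : ℕ) : ℝ) := by positivity
  have hlog := hN q (by omega)
  rw [one_mul, Real.norm_of_nonneg (Real.log_natCast_nonneg q),
    Real.norm_of_nonneg (Real.rpow_nonneg hq0.le _)] at hlog
  have hl0 : 0 ≤ Real.log q := Real.log_natCast_nonneg q
  have hbe : (q : ℝ) ^ (-(1 / 4 : ℝ)) ≤ be p := by
    unfold be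
    rw [max_eq_left (by omega : 1 ≤ p)]
    exact Real.rpow_le_rpow_of_nonpos hp0 (by rw [hq]; push_cast; linarith [Nat.cast_nonneg (α := ℝ) k])
      (by norm_num)
  have hb0 := be_nonneg p
  unfold mm ek
  split_ifs with hc
  · -- a large gap
    have h1 : (q : ℝ) ^ (-(9 / 8 : ℝ)) ≤ ((k + 1 : ℕ) : ℝ) ^ (-(9 / 8 : ℝ)) :=
      Real.rpow_le_rpow_of_nonpos hj0 (by rw [hj]; linarith) (by norm_num)
    have h2 : (Real.log q / q) * (Real.log q / √(q : ℝ)) ≤ (q : ℝ) ^ (-(11 / 8 : ℝ)) := by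
      rw [Real.sqrt_eq_rpow, div_mul_div_comm]
      have e1 : (q : ℝ) * (q : ℝ) ^ (1 / 2 : ℝ) = (q : ℝ) ^ (3 / 2 : ℝ) := by
        nth_rewrite 1 [← Real.rpow_one (q : ℝ)]
        rw [← Real.rpow_add hq0]
        norm_num
      rw [e1, div_le_iff₀ (Real.rpow_pos_of_pos hq0 _), ← Real.rpow_add hq0]
      have e2 : (-(11 / 8) + 3 / 2 : ℝ) = 1 / 16 + 1 / 16 := by norm_num
      rw [e2, Real.rpow_add hq0]
      exact mul_le_mul hlog hlog hl0 (Real.rpow_nonneg hq0.le _)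
    refine h2.trans ?_
    have e3 : (-(11 / 8 : ℝ)) = -(1 / 4) + -(9 / 8) := by norm_num
    rw [e3, Real.rpow_add hq0]
    exact mul_le_mul hbe h1 (Real.rpow_nonneg hq0.le _) hb0
  · -- a small gap
    rw [not_le] at hc
    have h1 : (q : ℝ) ^ (-(9 / 16 : ℝ)) ≤ ((k + 1 : ℕ) : ℝ) ^ (-(9 / 8 : ℝ)) := by
      have e1 : (q : ℝ) ^ (-(9 / 16 : ℝ)) = √(q : ℝ) ^ (-(9 / 8 : ℝ)) := by
        rw [Real.sqrt_eq_rpow, ← Real.rpow_mul hq0.le]
        norm_num
      rw [e1]
      exact Real.rpow_le_rpow_of_nonpos hj0 (by rw [hj]; exact hc.le) (by norm_num)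
    have h2 : Real.log q / q ≤ (q : ℝ) ^ (-(13 / 16 : ℝ)) := by
      rw [div_le_iff₀ hq0]
      nth_rewrite 3 [← Real.rpow_one (q : ℝ)]
      rw [← Real.rpow_add hq0]
      refine hlog.trans (Real.rpow_le_rpow_of_exponent_le (by linarith) (by norm_num))
    rw [mul_one]
    refine h2.trans ?_
    have e3 : (-(13 / 16 : ℝ)) = -(1 / 4) + -(9 / 16) := by norm_num
    rw [e3, Real.rpow_add hq0]
    exact mul_le_mul hbe h1 (Real.rpow_nonneg hq0.le _) hb0

/-- **pairs** -/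
theorem pair_law {x0 x1 y0 y1 u0 u1 : ℝ} (hx0 : 0 < x0) (hx : x0 < x1) (hy : y0 < y1)
    (hu : u0 < u1) (S : Set ℕ) : ∃ K : ℝ, 0 ≤ K ∧ ∃ N : ℕ, ∀ p ≥ N, ∀ k,
    (volume.restrict (B3 x0 x1 y0 y1 u0 u1)).real (EE S p ∩ EE S (p + 1 + k)) ≤
      K * w2 S p * be p * ek k := by
  obtain ⟨K, hK, N, h⟩ := pair_mean hx0 hx hy hu S
  obtain ⟨N', h'⟩ := eventually_atTop.1 numeric
  refine ⟨K, hK, max N N', fun p hp k => ?_⟩
  have h1 := h p ((le_max_left _ _).trans hp) (p + 1 + k) (by omega)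
  have h2 := h' p ((le_max_right _ _).trans hp) k
  refine h1.trans ?_
  rw [mul_assoc (K * w2 S p)]
  exact mul_le_mul_of_nonneg_left h2 (mul_nonneg hK (w2_nonneg S p))

end Pool.Agent.V1193.BP
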