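import Pool.Agent.V1193.BP.D

set_option autoImplicit false

/-! Assembly. -/

namespace Pool.Agent.V1193.BP

open Finset Filter Topology MeasureTheory
open Pool.Agent.H305R2 (ff measurable_ff ff_nonneg ff_le_one integrableOn_ff)
open Pool.Agent.V1193.FM (g g_nonneg g_le_one measurable_g integrableOn_g)
open Pool.Agent.Y122.PC (Bx measurable_Bx vol_Bx eg)
open Pool.Agent.V1193.LE (T T_nonneg summable_T T_pos T_tendsto average T_anti Last last_eq last_meas
  mean_eq tail_eq fin)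

lemma summable_w2 (S : Set ℕ) : Summable (w2 S) := by
  have h := (isLittleO_log_rpow_atTop (show (0 : ℝ) < 1 / 16 by norm_num)).bound one_pos
  have h' := (tendsto_natCast_atTop_atTop (R := ℝ)).eventually h
  refine Summable.of_norm_bounded_eventually_nat (g := fun p : ℕ => (p : ℝ) ^ (-(15 / 8 : ℝ)))
    (Real.summable_nat_rpow.2 (by norm_num)) ?_
  filter_upwards [h', eventually_ge_atTop 3] with p hp hp3
  have hp3' : (3 : ℝ) ≤ p := by exact_mod_cast hp3
  have hp0 : (0 : ℝ) < p := by linarith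
  rw [one_mul, Real.norm_of_nonneg (Real.log_natCast_nonneg p),
    Real.norm_of_nonneg (Real.rpow_nonneg hp0.le _)] at hp
  have hl0 : 0 ≤ Real.log p := Real.log_natCast_nonneg p
  rw [Real.norm_of_nonneg (w2_nonneg S p)]
  have h1 : w2 S p ≤ (Real.log p / p) ^ 2 := Set.indicator_le_self' (fun _ _ => sq_nonneg _) p
  refine h1.trans ?_
  have h2 : Real.log p / p ≤ (p : ℝ) ^ (-(15 / 16 : ℝ)) := by
    rw [div_le_iff₀ hp0]
    nth_rewrite 3 [← Real.rpow_one (p : ℝ)]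
    rw [← Real.rpow_add hp0]
    refine hp.trans (le_of_eq ?_)
    norm_num
  have e3 : (-(15 / 8 : ℝ)) = -(15 / 16) + -(15 / 16) := by norm_num
  rw [e3, Real.rpow_add hp0, sq]
  exact mul_le_mul h2 h2 (by positivity) (Real.rpow_nonneg hp0.le _)

lemma w2_pos {S : Set ℕ} {p : ℕ} (hp : p ∈ S) (h2 : 2 ≤ p) : 0 < w2 S p := by
  have h2' : (2 : ℝ) ≤ p := by exact_mod_cast h2
  have : w2 S p = (Real.log p / p) ^ 2 := Set.indicator_of_mem hp _
  rw [this]
  have := Real.log_pos (show (1 : ℝ) < p by linarith)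
  positivity

lemma w2_inf {S : Set ℕ} (hinf : S.Infinite) : ∀ n, ∃ p ≥ n, 0 < w2 S p := by
  intro n
  obtain ⟨p, hp, h⟩ := hinf.exists_gt (max n 2)
  exact ⟨p, ((le_max_left _ _).trans h.le), w2_pos hp ((le_max_right _ _).trans h.le)⟩

/-- a mass law gives summability -/
lemma summable_of_mass {Ω : Type*} [MeasurableSpace Ω] {μ : Measure Ω} {E : ℕ → Set Ω} {S : Set ℕ}
    {L : ℝ} (h : ∀ ε > 0, ∀ᶠ p : ℕ in atTop, |μ.real (E p) - L * w2 S p| ≤ ε * w2 S p) :
    Summable fun p => μ.real (E p) := by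
  refine Summable.of_norm_bounded_eventually_nat (g := fun p => (1 + |L|) * w2 S p)
    ((summable_w2 S).mul_left _) ?_
  filter_upwards [h 1 one_pos] with p hp
  rw [Real.norm_of_nonneg measureReal_nonneg]
  have h1 := (abs_le.1 hp).2
  have h2 := w2_nonneg S p
  have h3 : L * w2 S p ≤ |L| * w2 S p := mul_le_mul_of_nonneg_right (le_abs_self L) h2
  nlinarith

lemma summable_EE {x0 x1 y0 y1 u0 u1 : ℝ} (hx0 : 0 < x0) (hx : x0 < x1) (hy : y0 < y1)
    (hu : u0 < u1) (S : Set ℕ) :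
    Summable fun p => (volume.restrict (B3 x0 x1 y0 y1 u0 u1)).real (EE S p) :=
  summable_of_mass (one_law hx0 hx hy hu S)

/-- almost every triple has finitely many exponents -/
theorem finite_ae (S : Set ℕ) : ∀ᵐ z : ℝ × ℝ × ℝ, 0 < z.1 → {p | z ∈ EE S p}.Finite := by
  have h1 : ∀ k : ℕ, ∀ᵐ z : ℝ × ℝ × ℝ, z ∈ B3 (1 / ((k : ℝ) + 1)) (1 / ((k : ℝ) + 1) + k + 1)
      (-(k : ℝ) - 1) (k + 1) (-(k : ℝ) - 1) (k + 1) → {p | z ∈ EE S p}.Finite := by
    intro k
    have hk : (0 : ℝ) ≤ k := Nat.cast_nonneg k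
    refine (ae_restrict_iff' (measurable_B3 _ _ _ _ _ _)).1 ?_
    exact fin (summable_EE (by positivity) (by linarith) (by linarith) (by linarith) S)
  rw [← ae_all_iff] at h1
  filter_upwards [h1] with z hz h0
  obtain ⟨k1, hk1⟩ := exists_nat_one_div_lt h0
  obtain ⟨k2, hk2⟩ := exists_nat_ge (z.1)
  obtain ⟨k3, hk3⟩ := exists_nat_ge (|z.2.1|)
  obtain ⟨k4, hk4⟩ := exists_nat_ge (|z.2.2|)
  set k := max (max k1 k2) (max k3 k4) with hk
  have c1 : (k1 : ℝ) ≤ k := by exact_mod_cast (le_max_left _ _).trans (le_max_left _ _)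
  have c2 : (k2 : ℝ) ≤ k := by exact_mod_cast (le_max_right _ _).trans (le_max_left _ _)
  have c3 : (k3 : ℝ) ≤ k := by exact_mod_cast (le_max_left _ _).trans (le_max_right _ _)
  have c4 : (k4 : ℝ) ≤ k := by exact_mod_cast (le_max_right _ _).trans (le_max_right _ _)
  have d3 := abs_le.1 hk3
  have d4 := abs_le.1 hk4
  have c5 : (0 : ℝ) < 1 / ((k : ℝ) + 1) := by positivity
  refine hz k ⟨⟨?_, ?_⟩, ⟨?_, ?_⟩, ?_, ?_⟩
  · have : 1 / ((k : ℝ) + 1) ≤ 1 / ((k1 : ℝ) + 1) :=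
      one_div_le_one_div_of_le (by positivity) (by linarith)
    linarith
  · linarith
  · linarith [d3.1]
  · linarith [d3.2]
  · linarith [d4.1]
  · linarith [d4.2]

/-- from masses to the laws of the last index -/
lemma ratio_S {S : Set ℕ} {a : ℕ → ℝ} {L : ℝ}
    (h : ∀ ε > 0, ∀ᶠ p : ℕ in atTop, |a p - L * w2 S p| ≤ ε * w2 S p) :
    Tendsto (fun p => a p / w2 S p) (atTop ⊓ 𝓟 S) (𝓝 L) := by
  rw [Metric.tendsto_nhds]
  intro ε hε
  rw [eventually_inf_principal]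
  filter_upwards [h (ε / 2) (by positivity), eventually_ge_atTop 2] with p h1 h2 hp
  have h3 := w2_pos hp h2
  rw [Real.dist_eq]
  have e : a p / w2 S p - L = (a p - L * w2 S p) / w2 S p := by
    field_simp
  rw [e, abs_div, abs_of_pos h3, div_lt_iff₀ h3]
  nlinarith

theorem final3 {x0 x1 y0 y1 u0 u1 : ℝ} (hx0 : 0 < x0) (hx : x0 < x1) (hy : y0 < y1) (hu : u0 < u1)
    {S : Set ℕ} (hinf : S.Infinite) :
    Tendsto (fun p => (volume.restrict (B3 x0 x1 y0 y1 u0 u1)).real (EE S p) / w2 S p)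
      (atTop ⊓ 𝓟 S) (𝓝 (T3 x0 x1 y0 y1 u0 u1)) ∧
    Tendsto (fun p => (volume.restrict (B3 x0 x1 y0 y1 u0 u1)).real (Last (EE S) p) / w2 S p)
      (atTop ⊓ 𝓟 S) (𝓝 (T3 x0 x1 y0 y1 u0 u1)) ∧
    Tendsto (fun n => (volume.restrict (B3 x0 x1 y0 y1 u0 u1)).real {z | ∃ p, n ≤ p ∧ z ∈ EE S p} /
      T (w2 S) n) atTop (𝓝 (T3 x0 x1 y0 y1 u0 u1)) ∧
    Tendsto (fun n => (∫ z in B3 x0 x1 y0 y1 u0 u1, (({p | n ≤ p ∧ z ∈ EE S p}).ncard : ℝ)) /
      T (w2 S) n) atTop (𝓝 (T3 x0 x1 y0 y1 u0 u1)) ∧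
    ∃ K : ℝ, ∀ᶠ n : ℕ in atTop, (volume.restrict (B3 x0 x1 y0 y1 u0 u1)).real
      {z | ∃ p q, n ≤ p ∧ p < q ∧ z ∈ EE S p ∧ z ∈ EE S q} ≤
        K * (n : ℝ) ^ (-(1 / 4 : ℝ)) * T (w2 S) n := by
  have hw := w2_nonneg S
  have hs := summable_w2 S
  have hinf' := w2_inf hinf
  have hq := one_law hx0 hx hy hu S
  have hsum := summable_EE hx0 hx hy hu S
  obtain ⟨K, hK, N, hpair⟩ := pair_law hx0 hx hy hu S
  have hlast := last_law2 (meas_EE S) hw ek_nonneg summable_ek be_nonneg be_lim hK hq hpair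
  have hsub : ∀ m, Last (EE S) m ⊆ EE S m := fun m y hy => hy.1
  have hsum' : Summable fun m => (volume.restrict (B3 x0 x1 y0 y1 u0 u1)).real (Last (EE S) m) :=
    Summable.of_nonneg_of_le (fun m => measureReal_nonneg) (fun m => measureReal_mono (hsub m)) hsum
  refine ⟨ratio_S hq, ratio_S hlast, ?_, ?_, K * ∑' k, ek k, ?_⟩
  · refine (average hw hs hsum' hinf' hlast).congr fun n => ?_
    rw [tail_eq (meas_EE S) hsum]
  · refine (average hw hs hsum hinf' hq).congr fun n => ?_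
    rw [mean_eq (meas_EE S) hsum]
  · filter_upwards [eventually_ge_atTop N, eventually_ge_atTop 1] with n hn hn1
    have h := two_le2 hw hs ek_nonneg summable_ek be_nonneg be_anti hK hpair hn
    have e : be n = (n : ℝ) ^ (-(1 / 4 : ℝ)) := by
      unfold be
      rw [max_eq_left hn1]
    rw [← e]
    exact h

/-! ### A fixed base -/

/-- the events for a fixed base -/
def EF (S : Set ℕ) (x : ℝ) (p : ℕ) : Set (ℝ × ℝ) :=
  {w | p ∈ S ∧ ff p (p * x + w.1) = 1 ∧ g p (p * x + w.2) = 1}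

lemma meas_EF (S : Set ℕ) (x : ℝ) (p : ℕ) : MeasurableSet (EF S x p) := by
  have h1 : Measurable fun z : ℝ × ℝ => ff p (p * x + z.1) :=
    (measurable_ff p).comp (by fun_prop)
  have h2 : Measurable fun z : ℝ × ℝ => g p (p * x + z.2) :=
    (measurable_g p).comp (by fun_prop)
  by_cases hp : p ∈ S
  · have : EF S x p = {z : ℝ × ℝ | ff p (p * x + z.1) = 1 ∧ g p (p * x + z.2) = 1} := by
      ext z; exact ⟨fun h => h.2, fun h => ⟨hp, h⟩⟩
    rw [this]
    exact (h1 (measurableSet_singleton 1)).inter (h2 (measurableSet_singleton 1))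
  · have : EF S x p = ∅ := by
      ext z
      simp only [Set.mem_empty_iff_false, iff_false]
      exact fun h => hp h.1
    rw [this]; exact MeasurableSet.empty

lemma real_F {S : Set ℕ} {p : ℕ} (hp : p ∈ S) (x y0 y1 u0 u1 : ℝ) :
    (volume.restrict (Bx y0 y1 u0 u1)).real (EF S x p) = AA p y0 y1 x * BB p u0 u1 x := by
  have e : (fun w : ℝ × ℝ => ff p (p * x + w.1) * g p (p * x + w.2)) =
      (EF S x p).indicator (fun _ => (1 : ℝ)) := by
    funext z
    by_cases hz : z ∈ EF S x p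
    · rw [Set.indicator_of_mem hz, hz.2.1, hz.2.2, one_mul]
    · rw [Set.indicator_of_notMem hz]
      rcases ff01 p (p * x + z.1) with h | h
      · rw [h, zero_mul]
      · rcases g01 p (p * x + z.2) with h' | h'
        · rw [h', mul_zero]
        · exact absurd ⟨hp, h, h'⟩ hz
  have h1 : ∫ w in Bx y0 y1 u0 u1, ff p (p * x + w.1) * g p (p * x + w.2) =
      AA p y0 y1 x * BB p u0 u1 x := by
    unfold Bx AA BB
    rw [Measure.volume_eq_prod]
    exact setIntegral_prod_mul (fun y => ff p (p * x + y)) (fun u => g p (p * x + u)) _ _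
  rw [← h1, e, integral_indicator_const _ (meas_EF S x p), smul_eq_mul, mul_one]

theorem one_law_F {x y0 y1 u0 u1 : ℝ} (hx : 0 < x) (hy : y0 < y1) (hu : u0 < u1) (S : Set ℕ) :
    ∀ ε > 0, ∀ᶠ p : ℕ in atTop, |(volume.restrict (Bx y0 y1 u0 u1)).real (EF S x p) -
      ((eg * (y1 - y0) / x) * (eg * (u1 - u0) / x)) * w2 S p| ≤ ε * w2 S p := by
  intro ε hε
  have h2 := (Metric.tendsto_nhds.1 ((AA_lim hx hy).mul (BB_lim hx hu))) ε hε
  filter_upwards [h2, eventually_ge_atTop 3] with p hp hp3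
  by_cases hS : p ∈ S
  · have hw : w2 S p = (Real.log p / p) ^ 2 := Set.indicator_of_mem hS _
    have hp3' : (3 : ℝ) ≤ p := by exact_mod_cast hp3
    have hp0 : (0 : ℝ) < p := by linarith
    have hl : 0 < Real.log p := Real.log_pos (by linarith)
    have hw0 : 0 < (Real.log p / p) ^ 2 := by positivity
    rw [real_F hS, hw]
    rw [Real.dist_eq] at hp
    set J := AA p y0 y1 x
    set J' := BB p u0 u1 x
    set L := (eg * (y1 - y0) / x) * (eg * (u1 - u0) / x)
    have e2 : J * J' - L * (Real.log p / p) ^ 2 =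
        (J * (p / Real.log p) * (J' * (p / Real.log p)) - L) * (Real.log p / p) ^ 2 := by
      field_simp
    rw [e2, abs_mul, abs_of_pos hw0]
    exact mul_le_mul_of_nonneg_right hp.le hw0.le
  · have e : EF S x p = ∅ := by
      ext z
      simp only [Set.mem_empty_iff_false, iff_false]
      exact fun h => hS h.1
    have hw : w2 S p = 0 := Set.indicator_of_notMem hS _
    rw [e, hw]
    simp

theorem finite_ae_F {x : ℝ} (hx : 0 < x) (S : Set ℕ) :
    ∀ᵐ z : ℝ × ℝ, {p | z ∈ EF S x p}.Finite := by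
  have h1 : ∀ k : ℕ, ∀ᵐ z : ℝ × ℝ, z ∈ Bx
      (-(k : ℝ) - 1) (k + 1) (-(k : ℝ) - 1) (k + 1) → {p | z ∈ EF S x p}.Finite := by
    intro k
    have hk : (0 : ℝ) ≤ k := Nat.cast_nonneg k
    refine (ae_restrict_iff' (measurable_Bx _ _ _ _)).1 ?_
    exact fin (summable_of_mass (one_law_F hx (by linarith) (by linarith) S))
  rw [← ae_all_iff] at h1
  filter_upwards [h1] with z hz
  obtain ⟨k3, hk3⟩ := exists_nat_ge (|z.1|)
  obtain ⟨k4, hk4⟩ := exists_nat_ge (|z.2|)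
  set k := max k3 k4 with hk
  have c3 : (k3 : ℝ) ≤ k := by exact_mod_cast le_max_left _ _
  have c4 : (k4 : ℝ) ≤ k := by exact_mod_cast le_max_right _ _
  have d3 := abs_le.1 hk3
  have d4 := abs_le.1 hk4
  refine hz k ⟨⟨?_, ?_⟩, ?_, ?_⟩
  · linarith [d3.1]
  · linarith [d3.2]
  · linarith [d4.1]
  · linarith [d4.2]

theorem mean_F {x y0 y1 u0 u1 : ℝ} (hx : 0 < x) (hy : y0 < y1) (hu : u0 < u1) {S : Set ℕ}
    (hinf : S.Infinite) :
    Tendsto (fun n => (∫ z in Bx y0 y1 u0 u1, (({p | n ≤ p ∧ z ∈ EF S x p}).ncard : ℝ)) /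
      T (w2 S) n) atTop (𝓝 ((eg * (y1 - y0) / x) * (eg * (u1 - u0) / x))) := by
  have hq := one_law_F hx hy hu S
  have hsum := summable_of_mass hq
  refine (average (w2_nonneg S) (summable_w2 S) hsum (w2_inf hinf) hq).congr fun n => ?_
  rw [mean_eq (meas_EF S x) hsum]

end Pool.Agent.V1193.BP
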